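import Mathlib

set_option autoImplicit false

/-!
# Group rings of finite abelian groups and self-conjugate primes
-/

namespace Pool.Agent.E8helper90.TypeH

open MonoidAlgebra

section Inv

variable {G : Type*} [CommGroup G]

/-- the involution of the group ring induced by inversion of group elements -/
noncomputable def iv (R : Type*) [CommRing R] : MonoidAlgebra R G →+* MonoidAlgebra R G :=
  mapDomainRingHom R (invMonoidHom : G →* G)

theorem iv_single (R : Type*) [CommRing R] (g : G) (a : R) :
    iv R (single g a) = single g⁻¹ a := by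
  unfold iv
  simp

/-- Frobenius in the group ring over the field with `r` elements -/
theorem pow_prime_pow (r : ℕ) [Fact r.Prime] (e : ℕ) (X : MonoidAlgebra (ZMod r) G) :
    X ^ (r ^ e) = mapDomainRingHom (ZMod r) (powMonoidHom (r ^ e) : G →* G) X := by
  have : CharP (MonoidAlgebra (ZMod r) G) r := by
    refine charP_of_injective_ringHom (f := (singleOneRingHom : ZMod r →+* MonoidAlgebra (ZMod r) G))
      ?_ r
    intro a b h
    exact single_right_injective h
  have h : (iterateFrobenius (MonoidAlgebra (ZMod r) G) r e) =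
      mapDomainRingHom (ZMod r) (powMonoidHom (r ^ e) : G →* G) := by
    apply MonoidAlgebra.ringHom_ext
    · intro a
      rw [iterateFrobenius_def, single_pow]
      simp [ZMod.pow_card_pow]
    · intro g
      rw [iterateFrobenius_def, single_pow]
      simp
  rw [← h, iterateFrobenius_def]

theorem eq_zero_of_selfConj (r : ℕ) [Fact r.Prime] [Finite G] (N f : ℕ)
    (hN : ∀ g : G, g ^ N = 1) (hf : N ∣ r ^ f + 1) (hr : (Nat.card G).Coprime r)
    (X : MonoidAlgebra (ZMod r) G) (hX : X * iv (ZMod r) X = 0) : X = 0 := by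
  have h1 : iv (ZMod r) X = X ^ (r ^ f) := by
    rw [pow_prime_pow]
    unfold iv
    congr 2
    ext g
    simp only [invMonoidHom_apply, powMonoidHom_apply]
    obtain ⟨c, hc⟩ := hf
    rw [eq_comm, ← mul_eq_one_iff_eq_inv, ← pow_succ, hc, pow_mul, hN, one_pow]
  rw [h1, ← pow_succ'] at hX
  have h2 : X ^ (r ^ (f + 1)) = 0 := by
    have h3 : r ^ f + 1 ≤ r ^ (f + 1) := by
      have h4 : 2 ≤ r := (Fact.out : r.Prime).two_le
      have h5 : 0 < r ^ f := Nat.pow_pos (by omega)
      calc r ^ f + 1 ≤ r ^ f * 2 := by omega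
        _ ≤ r ^ f * r := Nat.mul_le_mul_left _ h4
        _ = r ^ (f + 1) := (pow_succ r f).symm
    exact pow_eq_zero_of_le h3 hX
  rw [pow_prime_pow] at h2
  have h6 : Function.Injective (powMonoidHom (r ^ (f + 1)) : G →* G) := by
    have h7 : (Nat.card G).Coprime (r ^ (f + 1)) := Nat.Coprime.pow_right _ hr
    exact (powCoprime h7).injective
  have h8 : Function.Injective
      (MonoidAlgebra.mapDomain (R := ZMod r) (powMonoidHom (r ^ (f + 1)) : G →* G)) :=
    mapDomain_injective h6
  apply h8
  rw [MonoidAlgebra.mapDomain_zero]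
  exact h2

/-- If `X X⁻¹ = r W` in the integral group ring, for a self-conjugate prime `r`, then `r` divides
`X`. -/
theorem dvd_of_selfConj (r : ℕ) (hrp : r.Prime) [Finite G] (N f : ℕ)
    (hN : ∀ g : G, g ^ N = 1) (hf : N ∣ r ^ f + 1) (hr : (Nat.card G).Coprime r)
    (X W : MonoidAlgebra ℤ G) (hX : X * iv ℤ X = (r : MonoidAlgebra ℤ G) * W) :
    ∃ Y : MonoidAlgebra ℤ G, X = (r : MonoidAlgebra ℤ G) * Y := by
  have : Fact r.Prime := ⟨hrp⟩
  set φ : MonoidAlgebra ℤ G →+* MonoidAlgebra (ZMod r) G :=
    mapRingHom G (Int.castRingHom (ZMod r)) with hφ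
  have h1 : φ X * iv (ZMod r) (φ X) = 0 := by
    have h2 : iv (ZMod r) (φ X) = φ (iv ℤ X) := by
      have h3 : (iv (ZMod r)).comp φ = φ.comp (iv ℤ) := by
        apply MonoidAlgebra.ringHom_ext
        · intro a
          simp [hφ, iv_single]
        · intro g
          simp [hφ, iv_single]
      exact congrArg (fun f => f X) h3
    rw [h2, ← map_mul, hX, map_mul, map_natCast]
    have h4 : ((r : ℕ) : MonoidAlgebra (ZMod r) G) = 0 := by
      rw [natCast_def]
      simp
    rw [h4, zero_mul]
  have h5 : φ X = 0 := eq_zero_of_selfConj r N f hN hf hr _ h1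
  refine ⟨ofCoeff (X.coeff.mapRange (fun a => a / (r : ℤ)) (by simp)), ?_⟩
  ext g
  have h6 : (φ X).coeff g = 0 := by rw [h5]; simp
  rw [hφ, coeff_mapRingHom] at h6
  have h7 : (r : ℤ) ∣ X.coeff g := by
    rw [← ZMod.intCast_zmod_eq_zero_iff_dvd]
    simpa using h6
  rw [natCast_def, coeff_single_one_mul]
  simp only [Finsupp.mapRange_apply]
  rw [mul_comm]
  exact (Int.ediv_mul_cancel h7).symm

end Inv

end Pool.Agent.E8helper90.TypeH
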