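import Mathlib

set_option autoImplicit false

/-!
# Number theory for planes of type (h)
-/

namespace Pool.Agent.E8helper90.TypeH

/-- the only square roots of `1` modulo `N` are `1` and `-1` -/
def SqrtOne (N : ℕ) : Prop := ∀ x : ZMod N, x ^ 2 = 1 → x = 1 ∨ x = -1

theorem sqrtOne_of_primePow {q a : ℕ} (hq : q.Prime) (hq2 : q ≠ 2) : SqrtOne (q ^ a) := by
  intro x hx
  rcases Nat.eq_zero_or_pos a with rfl | ha
  · left
    have : Subsingleton (ZMod (q ^ 0)) := by
      rw [pow_zero]; infer_instance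
    exact Subsingleton.elim _ _
  have hN : NeZero (q ^ a) := ⟨(Nat.pow_pos hq.pos).ne'⟩
  -- lift to the integers
  obtain ⟨y, rfl⟩ := ZMod.intCast_surjective x
  have h1 : ((q ^ a : ℕ) : ℤ) ∣ (y - 1) * (y + 1) := by
    rw [← ZMod.intCast_zmod_eq_zero_iff_dvd]
    push_cast
    linear_combination hx
  have hqi : Prime (q : ℤ) := Nat.prime_iff_prime_int.1 hq
  by_cases h : (q : ℤ) ∣ y - 1
  · left
    have h2 : ¬ (q : ℤ) ∣ y + 1 := by
      intro h3
      have h4 : (q : ℤ) ∣ 2 := by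
        have := dvd_sub h3 h
        simpa using (by ring_nf at this; exact this : (q : ℤ) ∣ 2)
      have h5 : q ∣ 2 := by exact_mod_cast h4
      exact hq2 ((Nat.prime_dvd_prime_iff_eq hq Nat.prime_two).1 h5)
    have h3 : IsCoprime ((q ^ a : ℕ) : ℤ) (y + 1) := by
      push_cast
      exact IsCoprime.pow_left ((Prime.coprime_iff_not_dvd hqi).2 h2)
    have h4 := h3.dvd_of_dvd_mul_right h1
    rw [← ZMod.intCast_zmod_eq_zero_iff_dvd] at h4
    push_cast at h4
    linear_combination h4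
  · right
    have h3 : IsCoprime ((q ^ a : ℕ) : ℤ) (y - 1) := by
      push_cast
      exact IsCoprime.pow_left ((Prime.coprime_iff_not_dvd hqi).2 h)
    have h4 := h3.dvd_of_dvd_mul_left h1
    rw [← ZMod.intCast_zmod_eq_zero_iff_dvd] at h4
    push_cast at h4
    linear_combination h4

theorem selfConj_of_even {N r : ℕ} (hN : SqrtOne N) (hpos : 0 < orderOf (r : ZMod N))
    (he : Even (orderOf (r : ZMod N))) : ∃ f, N ∣ r ^ f + 1 := by
  obtain ⟨s, hs⟩ := he
  have h1 : ((r : ZMod N) ^ s) ^ 2 = 1 := by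
    rw [← pow_mul, mul_two, ← hs, pow_orderOf_eq_one]
  rcases hN _ h1 with h | h
  · exfalso
    have h2 := orderOf_dvd_of_pow_eq_one h
    have h3 := Nat.le_of_dvd (by omega) h2
    omega
  · refine ⟨s, ?_⟩
    rw [← CharP.cast_eq_zero_iff (ZMod N)]
    push_cast
    rw [h]
    ring

theorem exists_odd_pow {N : ℕ} (m : ℕ) (hm : m ≠ 0)
    (h : ∀ r : ℕ, r.Prime → r ∣ m → Odd (orderOf (r : ZMod N))) :
    ∃ M : ℕ, Odd M ∧ (m : ZMod N) ^ M = 1 := by
  induction m using induction_on_primes with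
  | zero => exact absurd rfl hm
  | one => exact ⟨1, odd_one, by simp⟩
  | prime_mul p a hp ih =>
    have ha : a ≠ 0 := by
      rintro rfl
      simp at hm
    obtain ⟨M, hM, h1⟩ := ih ha (fun r hr hra => h r hr (Dvd.dvd.mul_left hra p))
    have h2 := h p hp (dvd_mul_right p a)
    refine ⟨orderOf (p : ZMod N) * M, h2.mul hM, ?_⟩
    push_cast
    rw [mul_pow, pow_mul, pow_orderOf_eq_one, one_pow, mul_comm (orderOf _) M, pow_mul, h1, one_pow,
      mul_one]

/-- the number `k ^ 2 - k + 1` -/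
theorem cube (k N : ℕ) (hN : N + k = k ^ 2 + 1) : ((k : ℕ) : ZMod N) ^ 3 = -1 := by
  have h1 : ((N : ℕ) : ZMod N) + (k : ZMod N) = (k : ZMod N) ^ 2 + 1 := by
    exact_mod_cast congrArg (Nat.cast : ℕ → ZMod N) hN
  rw [ZMod.natCast_self] at h1
  linear_combination (-(k : ZMod N) - 1) * h1

theorem coprime_k {k N r : ℕ} (hN : N + k = k ^ 2 + 1) (hr : r.Prime) (hrk : r ∣ k) :
    Nat.Coprime r N := by
  rw [hr.coprime_iff_not_dvd]
  intro h
  have h1 : r ∣ k ^ 2 + 1 := hN ▸ dvd_add h hrk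
  have h2 : r ∣ 1 := (Nat.dvd_add_right (Dvd.dvd.pow hrk two_ne_zero)).1 h1
  exact hr.one_lt.ne' (Nat.dvd_one.1 h2)

theorem coprime_k1 {k N r : ℕ} (hk : 1 ≤ k) (hN : N + k = k ^ 2 + 1) (hr : r.Prime)
    (hrk : r ∣ k - 1) : Nat.Coprime r N := by
  rw [hr.coprime_iff_not_dvd]
  intro h
  obtain ⟨j, rfl⟩ : ∃ j, k = j + 1 := ⟨k - 1, by omega⟩
  rw [Nat.add_sub_cancel] at hrk
  have h1 : N = j * (j + 1) + 1 := by nlinarith
  rw [h1] at h
  have h2 : r ∣ 1 := (Nat.dvd_add_right (Dvd.dvd.mul_right hrk _)).1 h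
  exact hr.one_lt.ne' (Nat.dvd_one.1 h2)

theorem orderOf_pos_of_coprime {N r : ℕ} (hN : 0 < N) (h : Nat.Coprime r N) :
    0 < orderOf (r : ZMod N) := by
  have : NeZero N := ⟨hN.ne'⟩
  have h1 : (r : ZMod N) = ((ZMod.unitOfCoprime r h : (ZMod N)ˣ) : ZMod N) := by
    rw [ZMod.coe_unitOfCoprime]
  rw [h1, orderOf_units]
  exact orderOf_pos _

/-- some prime divisor of `k` is self-conjugate modulo `N = k ^ 2 - k + 1` -/
theorem exists_selfConj {k N : ℕ} (hk : 2 ≤ k) (hN : N + k = k ^ 2 + 1) (hS : SqrtOne N) :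
    ∃ r f : ℕ, r.Prime ∧ r ∣ k ∧ N ∣ r ^ f + 1 := by
  by_contra hcon
  push Not at hcon
  have hN2 : 2 < N := by nlinarith
  obtain ⟨M, hM, h1⟩ := exists_odd_pow (N := N) k (by omega) (by
    intro r hr hrk
    by_contra ho
    rw [Nat.not_odd_iff_even] at ho
    obtain ⟨f, hf⟩ := selfConj_of_even hS
      (orderOf_pos_of_coprime (by omega) (coprime_k hN hr hrk)) ho
    exact hcon r f hr hrk hf)
  have h2 : ((k : ZMod N) ^ 3) ^ M = 1 := by
    rw [← pow_mul, mul_comm, pow_mul, h1, one_pow]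
  rw [cube k N hN, hM.neg_one_pow] at h2
  have : Fact (2 < N) := ⟨hN2⟩
  exact ZMod.neg_one_ne_one h2

theorem three_selfConj {N : ℕ} (h4 : N % 4 = 3) (h3 : N % 3 = 1) (hS : SqrtOne N) :
    ∃ f : ℕ, N ∣ 3 ^ f + 1 := by
  have hcop : Nat.Coprime 3 N := by
    rw [Nat.prime_three.coprime_iff_not_dvd]
    omega
  apply selfConj_of_even (r := 3) hS (orderOf_pos_of_coprime (by omega) hcop)
  by_contra ho
  rw [Nat.not_even_iff_odd] at ho
  have hJ : jacobiSym 3 N = -1 := by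
    have h1 := jacobiSym.quadratic_reciprocity_three_mod_four (a := 3) (b := N) rfl h4
    have h2 : jacobiSym (N : ℤ) 3 = 1 := by
      rw [jacobiSym.mod_left]
      have h5 : ((N : ℤ) % ((3 : ℕ) : ℤ)) = 1 := by omega
      rw [h5]
      exact jacobiSym.one_left 3
    rw [h2] at h1
    exact_mod_cast h1
  have h1 : ((3 ^ (orderOf ((3 : ℕ) : ZMod N)) : ℤ)) ≡ 1 [ZMOD N] := by
    rw [← ZMod.intCast_eq_intCast_iff]
    push_cast
    have := pow_orderOf_eq_one ((3 : ℕ) : ZMod N)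
    push_cast at this
    exact this
  have h2 : jacobiSym (3 ^ (orderOf ((3 : ℕ) : ZMod N))) N = 1 := by
    rw [jacobiSym.mod_left, h1, ← jacobiSym.mod_left]
    exact jacobiSym.one_left N
  rw [jacobiSym.pow_left, hJ, ho.neg_one_pow] at h2
  norm_num at h2

end Pool.Agent.E8helper90.TypeH
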