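import Mathlib

set_option autoImplicit false

/-!
# Many pairwise disjoint subgroups of order `N` in an abelian group of order `N ^ 2`
-/

namespace Pool.Agent.E8helper90.TypeH

section

variable {G : Type*} [CommGroup G] [Finite G]

/-- If an abelian group of order `N ^ 2` contains `c` subgroups of order `N` with pairwise trivial
intersection and the prime `q` divides `N`, then `c ≤ q ^ a + 1` for the exact power `q ^ a`. -/
theorem card_le_of_disjoint (N : ℕ) (hN : N ≠ 0) (hG : Nat.card G = N ^ 2)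
    (S : Finset (Subgroup G)) (hcard : ∀ K ∈ S, Nat.card K = N)
    (hdisj : ∀ K ∈ S, ∀ K' ∈ S, K ≠ K' → K ⊓ K' = ⊥) (q : ℕ) (hq : q.Prime) (hqN : q ∣ N) :
    S.card ≤ q ^ (N.factorization q) + 1 := by
  classical
  have : Fact q.Prime := ⟨hq⟩
  have : Fintype G := Fintype.ofFinite G
  obtain ⟨Q⟩ := (inferInstance : Nonempty (Sylow q G))
  set a := N.factorization q with ha
  have hQ : Nat.card Q = q ^ (2 * a) := by
    rw [Sylow.card_eq_multiplicity, hG, Nat.factorization_pow]
    simp [ha]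
  have ha0 : a ≠ 0 := by
    rw [ha, ← Nat.pos_iff_ne_zero]
    exact hq.factorization_pos_of_dvd hN hqN
  let A : Subgroup G → Finset G := fun K => Finset.univ.filter (fun g => g ∈ K ∧ g ∈ Q ∧ g ≠ 1)
  have hA : ∀ K ∈ S, q ^ a - 1 ≤ (A K).card := by
    intro K hK
    obtain ⟨R⟩ := (inferInstance : Nonempty (Sylow q K))
    have hR : Nat.card R = q ^ a := by
      rw [Sylow.card_eq_multiplicity, hcard K hK]
    have hRQ : ∀ g : K, g ∈ R → (g : G) ∈ Q := by
      intro g hg
      have hp : IsPGroup q ((R : Subgroup K).map K.subtype) := R.isPGroup'.map K.subtype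
      obtain ⟨Q', hQ'⟩ := hp.exists_le_sylow
      have hn : (Q : Subgroup G).Normal := inferInstance
      have hu := Sylow.unique_of_normal Q hn
      have : Q' = Q := Subsingleton.elim _ _
      rw [← this]
      apply hQ'
      exact ⟨g, hg, rfl⟩
    have h1 : Fintype.card {g : R // g ≠ 1} ≤ (A K).card := by
      rw [← Fintype.card_coe]
      refine Fintype.card_le_of_injective (fun g => ⟨((g : R) : K), ?_⟩) ?_
      · simp only [A, Finset.mem_filter, Finset.mem_univ, true_and]
        refine ⟨((g : R) : K).2, hRQ _ (g : R).2, ?_⟩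
        intro h
        apply g.2
        ext
        simpa using h
      · intro g g' h
        simp only [Subtype.mk.injEq] at h
        ext
        exact h
    have h2 : Fintype.card {g : R // g ≠ 1} = q ^ a - 1 := by
      rw [← hR, Nat.card_eq_fintype_card]
      exact Set.card_ne_eq (1 : R)
    omega
  have hU : (S.biUnion A).card = ∑ K ∈ S, (A K).card := by
    apply Finset.card_biUnion
    intro K hK K' hK' hne
    rw [Function.onFun, Finset.disjoint_left]
    intro g hg hg'
    simp only [A, Finset.mem_filter, Finset.mem_univ, true_and] at hg hg'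
    apply hg.2.2
    have h1 : g ∈ K ⊓ K' := ⟨hg.1, hg'.1⟩
    rw [hdisj K hK K' hK' hne] at h1
    exact Subgroup.mem_bot.1 h1
  have hU2 : (S.biUnion A).card ≤ q ^ (2 * a) - 1 := by
    have h1 : S.biUnion A ⊆ (Finset.univ.filter (fun g : G => g ∈ Q)).erase 1 := by
      intro g hg
      rw [Finset.mem_biUnion] at hg
      obtain ⟨K, hK, hg⟩ := hg
      simp only [A, Finset.mem_filter, Finset.mem_univ, true_and] at hg
      rw [Finset.mem_erase]
      simp [hg.2.1, hg.2.2]
    refine (Finset.card_le_card h1).trans ?_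
    rw [Finset.card_erase_of_mem (by simp)]
    have h2 : (Finset.univ.filter (fun g : G => g ∈ Q)).card = q ^ (2 * a) := by
      rw [← hQ, Nat.card_eq_fintype_card, Fintype.card_subtype]
      rfl
    rw [h2]
  have h3 : S.card * (q ^ a - 1) ≤ q ^ (2 * a) - 1 := by
    calc S.card * (q ^ a - 1) = ∑ _K ∈ S, (q ^ a - 1) := by simp
      _ ≤ ∑ K ∈ S, (A K).card := Finset.sum_le_sum hA
      _ = (S.biUnion A).card := hU.symm
      _ ≤ _ := hU2
  have h4 : 2 ≤ q ^ a := by
    calc 2 ≤ q := hq.two_le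
      _ = q ^ 1 := (pow_one q).symm
      _ ≤ q ^ a := Nat.pow_le_pow_right hq.pos (by omega)
  have h5 : q ^ (2 * a) - 1 = (q ^ a + 1) * (q ^ a - 1) := by
    obtain ⟨b, hb⟩ : ∃ b, q ^ a = b + 1 := ⟨q ^ a - 1, by omega⟩
    rw [mul_comm 2 a, pow_mul, hb]
    simp only [Nat.add_sub_cancel]
    have : (b + 1) ^ 2 = (b + 1 + 1) * b + 1 := by ring
    rw [this, Nat.add_sub_cancel]
  rw [h5] at h3
  exact Nat.le_of_mul_le_mul_right h3 (by omega)

/-- the number `N = k ^ 2 - k + 1` is a prime power -/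
theorem primePow_of_disjoint (k N : ℕ) (hk : 2 ≤ k) (hNk : N + k = k ^ 2 + 1)
    (hG : Nat.card G = N ^ 2)
    (S : Finset (Subgroup G)) (hS : S.card = 2 * k) (hcard : ∀ K ∈ S, Nat.card K = N)
    (hdisj : ∀ K ∈ S, ∀ K' ∈ S, K ≠ K' → K ⊓ K' = ⊥) :
    ∃ q a : ℕ, q.Prime ∧ q ≠ 2 ∧ N = q ^ a := by
  have hN1 : 1 < N := by nlinarith
  have hN0 : N ≠ 0 := by omega
  have key : ∀ q : ℕ, q.Prime → q ∣ N → 2 * k ≤ q ^ (N.factorization q) + 1 := by
    intro q hq hqN
    rw [← hS]
    exact card_le_of_disjoint N hN0 hG S hcard hdisj q hq hqN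
  set q := N.minFac with hqdef
  have hq : q.Prime := Nat.minFac_prime (by omega)
  have hqN : q ∣ N := Nat.minFac_dvd N
  have huniq : ∀ {d : ℕ}, Nat.Prime d → d ∣ N → d = q := by
    intro d hd hdN
    by_contra hne
    have h1 := key q hq hqN
    have h2 := key d hd hdN
    have h3 : q ^ (N.factorization q) * d ^ (N.factorization d) ∣ N := by
      apply Nat.Coprime.mul_dvd_of_dvd_of_dvd
      · exact Nat.Coprime.pow _ _ ((Nat.coprime_primes hq hd).2 (fun h => hne h.symm))
      · exact Nat.ordProj_dvd N q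
      · exact Nat.ordProj_dvd N d
    have h4 := Nat.le_of_dvd (by omega) h3
    have h5 : (2 * k - 1) * (2 * k - 1) ≤ q ^ (N.factorization q) * d ^ (N.factorization d) :=
      Nat.mul_le_mul (by omega) (by omega)
    obtain ⟨j, rfl⟩ : ∃ j, k = j + 1 := ⟨k - 1, by omega⟩
    have h6 : 2 * (j + 1) - 1 = 2 * j + 1 := by omega
    rw [h6] at h5
    nlinarith
  refine ⟨q, N.primeFactorsList.length, hq, ?_, Nat.eq_prime_pow_of_unique_prime_dvd hN0 huniq⟩
  intro h2
  rw [h2] at hqN
  have h3 : Even (k * (k - 1)) := Nat.even_mul_pred_self k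
  obtain ⟨j, rfl⟩ : ∃ j, k = j + 1 := ⟨k - 1, by omega⟩
  rw [Nat.add_sub_cancel] at h3
  have h4 : N = (j + 1) * j + 1 := by nlinarith
  obtain ⟨c, hc⟩ := h3
  omega

end

end Pool.Agent.E8helper90.TypeH
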