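import Mathlib
import Pool.Agent.E8helper90.TypeH.GroupRing
import Pool.Agent.E8helper90.TypeH.NumberTheory
import Pool.Agent.E8helper90.TypeH.PrimePower

set_option autoImplicit false
set_option linter.unusedSectionVars false

/-!
# The group ring equation of a plane of type (h) has no solutions
-/

namespace Pool.Agent.E8helper90.TypeH

open MonoidAlgebra

section Ind

variable {G : Type*} [CommGroup G] [Fintype G] [DecidableEq G]

/-- the indicator of a finite set as an element of the integral group ring -/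
noncomputable def ind (S : Finset G) : MonoidAlgebra ℤ G := ∑ g ∈ S, single g 1

theorem coeff_ind (S : Finset G) (x : G) : (ind S).coeff x = if x ∈ S then 1 else 0 := by
  unfold ind
  rw [coeff_sum, Finsupp.finsetSum_apply]
  simp only [coeff_single, Finsupp.single_apply]
  rw [Finset.sum_ite_eq' S x]

theorem iv_coeff (X : MonoidAlgebra ℤ G) (g : G) : (iv ℤ X).coeff g = X.coeff g⁻¹ := by
  unfold iv
  have h : Function.Injective (invMonoidHom : G →* G) := by
    intro a b hab
    simpa using hab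
  have h2 : (mapDomainRingHom ℤ (invMonoidHom : G →* G) X).coeff ((invMonoidHom : G →* G) g⁻¹) =
      X.coeff g⁻¹ := Finsupp.mapDomain_apply h X.coeff g⁻¹
  simpa using h2

theorem coeff_mul' (X Y : MonoidAlgebra ℤ G) (x : G) :
    (X * Y).coeff x = ∑ g : G, X.coeff g * Y.coeff (g⁻¹ * x) := by
  rw [coeff_mul_apply_left, Finsupp.sum_fintype]
  intro g
  simp

theorem coeff_mul_univ (X : MonoidAlgebra ℤ G) (x : G) :
    (X * ind Finset.univ).coeff x = ∑ g : G, X.coeff g := by
  rw [coeff_mul']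
  simp [coeff_ind]

theorem coeff_mul_iv (X : MonoidAlgebra ℤ G) :
    (X * iv ℤ X).coeff 1 = ∑ g : G, (X.coeff g) ^ 2 := by
  rw [coeff_mul']
  refine Finset.sum_congr rfl fun g _ => ?_
  rw [iv_coeff]
  simp [sq]

theorem intCast_mul_coeff (n : ℤ) (X : MonoidAlgebra ℤ G) (x : G) :
    ((n : MonoidAlgebra ℤ G) * X).coeff x = n * X.coeff x := by
  have h : (n : MonoidAlgebra ℤ G) = single 1 n := by
    rw [← Int.cast_id (n := n)]
    exact (map_intCast (singleOneRingHom : ℤ →+* MonoidAlgebra ℤ G) n).symm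
  rw [h, coeff_single_one_mul]

theorem ind_mul_univ (S : Finset G) :
    ind S * ind Finset.univ = (S.card : MonoidAlgebra ℤ G) * ind Finset.univ := by
  ext x
  rw [coeff_mul_univ]
  have := intCast_mul_coeff (S.card : ℤ) (ind (Finset.univ : Finset G)) x
  push_cast at this
  rw [this]
  simp [coeff_ind]

theorem iv_ind_univ : iv ℤ (ind (Finset.univ : Finset G)) = ind Finset.univ := by
  ext x
  rw [iv_coeff]
  simp [coeff_ind]

/-- the elements of a subgroup as a finite set -/
def fs (K : Subgroup G) [DecidablePred (· ∈ K)] : Finset G := Finset.univ.filter (· ∈ K)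

open Classical in
/-- the element of the group ring given by a subgroup -/
noncomputable def sub (K : Subgroup G) : MonoidAlgebra ℤ G := ind (Finset.univ.filter (· ∈ K))

theorem coeff_sub' (K : Subgroup G) (x : G) [Decidable (x ∈ K)] :
    (sub K).coeff x = if x ∈ K then 1 else 0 := by
  classical
  unfold sub
  rw [coeff_ind]
  simp

theorem iv_sub (K : Subgroup G) : iv ℤ (sub K) = sub K := by
  classical
  ext x
  rw [iv_coeff, coeff_sub', coeff_sub']
  simp

theorem sub_mul_univ (K : Subgroup G) :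
    sub K * ind Finset.univ = (Nat.card K : MonoidAlgebra ℤ G) * ind Finset.univ := by
  classical
  unfold sub
  rw [ind_mul_univ]
  congr 2
  rw [Nat.card_eq_fintype_card, Fintype.card_subtype]

theorem sub_mul_self (K : Subgroup G) :
    sub K * sub K = (Nat.card K : MonoidAlgebra ℤ G) * sub K := by
  classical
  ext x
  have h := intCast_mul_coeff (Nat.card K : ℤ) (sub K) x
  push_cast at h
  rw [h, coeff_mul', coeff_sub']
  by_cases hx : x ∈ K
  · have h2 : ∀ g : G, (sub K).coeff g * (sub K).coeff (g⁻¹ * x) = if g ∈ K then 1 else 0 := by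
      intro g
      rw [coeff_sub', coeff_sub']
      by_cases hg : g ∈ K
      · rw [if_pos hg, if_pos (K.mul_mem (K.inv_mem hg) hx), one_mul]
      · rw [if_neg hg, zero_mul]
    rw [Finset.sum_congr rfl (fun g _ => h2 g), if_pos hx]
    rw [Finset.sum_boole, Nat.card_eq_fintype_card, Fintype.card_subtype]
    simp
  · have h2 : ∀ g : G, (sub K).coeff g * (sub K).coeff (g⁻¹ * x) = 0 := by
      intro g
      rw [coeff_sub', coeff_sub']
      by_cases hg : g ∈ K
      · have h3 : g⁻¹ * x ∉ K := fun h => hx (by simpa using K.mul_mem hg h)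
        rw [if_neg h3, mul_zero]
      · rw [if_neg hg, zero_mul]
    rw [Finset.sum_congr rfl (fun g _ => h2 g), if_neg hx]
    simp

theorem sub_mul_sub (K K' : Subgroup G) (h : K ⊓ K' = ⊥)
    (hc : Nat.card K * Nat.card K' = Nat.card G) :
    sub K * sub K' = ind Finset.univ := by
  classical
  have hinj : Function.Injective (fun p : K × K' => (p.1 : G) * (p.2 : G)) := by
    rintro ⟨⟨a, ha⟩, ⟨b, hb⟩⟩ ⟨⟨c, hc⟩, ⟨d, hd⟩⟩ hh
    simp only at hh
    have h1 : c⁻¹ * a = d * b⁻¹ := by
      rw [inv_mul_eq_iff_eq_mul, ← mul_assoc, eq_mul_inv_iff_mul_eq]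
      exact hh
    have h2 : c⁻¹ * a ∈ K ⊓ K' :=
      ⟨K.mul_mem (K.inv_mem hc) ha, h1 ▸ K'.mul_mem hd (K'.inv_mem hb)⟩
    rw [h, Subgroup.mem_bot] at h2
    have h3 : a = c := by rw [inv_mul_eq_one] at h2; exact h2.symm
    have h4 : b = d := by rw [h2] at h1; exact (mul_inv_eq_one.1 h1.symm).symm
    subst h3; subst h4; rfl
  have hbij : Function.Bijective (fun p : K × K' => (p.1 : G) * (p.2 : G)) := by
    rw [Fintype.bijective_iff_injective_and_card]
    refine ⟨hinj, ?_⟩
    rw [Fintype.card_prod, ← Nat.card_eq_fintype_card, ← Nat.card_eq_fintype_card,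
      ← Nat.card_eq_fintype_card]
    exact hc
  ext x
  rw [coeff_mul', coeff_ind, if_pos (Finset.mem_univ x)]
  obtain ⟨⟨⟨a, ha⟩, ⟨b, hb⟩⟩, hab⟩ := hbij.2 x
  simp only at hab
  rw [Finset.sum_eq_single a]
  · rw [coeff_sub', coeff_sub', if_pos ha, if_pos, one_mul]
    rw [← hab]
    simpa using hb
  · intro g _ hg
    rw [coeff_sub', coeff_sub']
    by_cases h1 : g ∈ K
    · by_cases h2 : g⁻¹ * x ∈ K'
      · exfalso
        have h3 := @hinj (⟨g, h1⟩, ⟨g⁻¹ * x, h2⟩) (⟨a, ha⟩, ⟨b, hb⟩) (by simp [hab])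
        simp only [Prod.mk.injEq, Subtype.mk.injEq] at h3
        exact hg h3.1
      · rw [if_neg h2, mul_zero]
    · rw [if_neg h1, zero_mul]
  · intro h; exact absurd (Finset.mem_univ _) h

end Ind

section Main

variable {G : Type*} [CommGroup G] [Fintype G] [DecidableEq G]

/-- A set of `(k - 1) ^ 2` elements of an abelian group of order `N ^ 2`, `N = k ^ 2 - k + 1`, whose
quotients represent every element outside the union of `2 k` pairwise disjoint subgroups of order
`N` exactly once and no other non-identity element. -/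
structure Design (k N : ℕ) (S : Finset (Subgroup G)) (D : Finset G) : Prop where
  hk : 3 ≤ k
  hN : N + k = k ^ 2 + 1
  hG : Nat.card G = N ^ 2
  hS : S.card = 2 * k
  hcard : ∀ K ∈ S, Nat.card K = N
  hdisj : ∀ K ∈ S, ∀ K' ∈ S, K ≠ K' → K ⊓ K' = ⊥
  hD : D.card = (k - 1) ^ 2
  hD1 : ∀ K ∈ S, ∀ d ∈ D, ∀ d' ∈ D, d * d'⁻¹ ∈ K → d = d'
  hD2 : ∀ x : G, (∀ K ∈ S, x ∉ K) → ∃! p : G × G, p.1 ∈ D ∧ p.2 ∈ D ∧ p.1 * p.2⁻¹ = x

variable {k N : ℕ} {S : Finset (Subgroup G)} {D : Finset G}

/-- the sum of the subgroups in the group ring -/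
noncomputable def sig (S : Finset (Subgroup G)) : MonoidAlgebra ℤ G := ∑ K ∈ S, sub K

theorem iv_sig : iv ℤ (sig S) = sig S := by
  unfold sig
  rw [map_sum]
  exact Finset.sum_congr rfl fun K _ => iv_sub K

theorem coeff_sig (x : G) : (sig S).coeff x = ∑ K ∈ S, (sub K).coeff x := by
  unfold sig
  rw [coeff_sum, Finsupp.finsetSum_apply]

theorem one_coeff (x : G) : (1 : MonoidAlgebra ℤ G).coeff x = if x = 1 then 1 else 0 := by
  rw [one_def, coeff_single, Finsupp.single_apply]
  simp [eq_comm]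

namespace Design

variable (h : Design k N S D)

include h

theorem sig_mul_univ : sig S * ind Finset.univ =
    ((2 * k * N : ℕ) : MonoidAlgebra ℤ G) * ind Finset.univ := by
  unfold sig
  rw [Finset.sum_mul, Finset.sum_congr rfl (fun K hK => by
    rw [sub_mul_univ, h.hcard K hK] : ∀ K ∈ S, sub K * ind Finset.univ =
      (N : MonoidAlgebra ℤ G) * ind Finset.univ)]
  rw [Finset.sum_const, h.hS, nsmul_eq_mul]
  push_cast
  ring

theorem sig_mul_sig : sig S * sig S = (N : MonoidAlgebra ℤ G) * sig S +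
    ((2 * k * (2 * k - 1) : ℕ) : MonoidAlgebra ℤ G) * ind Finset.univ := by
  classical
  have h1 : ∀ K ∈ S, sub K * sig S = (N : MonoidAlgebra ℤ G) * sub K +
      ((2 * k - 1 : ℕ) : MonoidAlgebra ℤ G) * ind Finset.univ := by
    intro K hK
    unfold sig
    rw [Finset.mul_sum, ← Finset.add_sum_erase S _ hK, sub_mul_self, h.hcard K hK]
    congr 1
    rw [Finset.sum_congr rfl (fun K' hK' => by
      rw [Finset.mem_erase] at hK'
      apply sub_mul_sub K K' (h.hdisj K hK K' hK'.2 hK'.1.symm)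
      rw [h.hcard K hK, h.hcard K' hK'.2, h.hG, sq] : ∀ K' ∈ S.erase K, sub K * sub K' =
        ind Finset.univ)]
    rw [Finset.sum_const, Finset.card_erase_of_mem hK, h.hS, nsmul_eq_mul]
  have h2 : sig S * sig S = ∑ K ∈ S, sub K * sig S := by
    conv_lhs => lhs; unfold sig
    rw [Finset.sum_mul]
  rw [h2, Finset.sum_congr rfl h1, Finset.sum_add_distrib, ← Finset.mul_sum, Finset.sum_const,
    h.hS, nsmul_eq_mul]
  unfold sig
  push_cast
  ring

theorem exists_ne_mem_of_mem {x : G} (hx : x ≠ 1) {K : Subgroup G} (hK : K ∈ S) (hxK : x ∈ K) :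
    (sig S).coeff x = 1 := by
  classical
  rw [coeff_sig, Finset.sum_eq_single K]
  · rw [coeff_sub', if_pos hxK]
  · intro K' hK' hne
    rw [coeff_sub', if_neg]
    intro hx'
    have h1 : x ∈ K ⊓ K' := ⟨hxK, hx'⟩
    rw [h.hdisj K hK K' hK' hne.symm, Subgroup.mem_bot] at h1
    exact hx h1
  · intro h1; exact absurd hK h1

theorem coeff_ind_mul_iv (x : G) : (ind D * iv ℤ (ind D)).coeff x =
    ((D ×ˢ D).filter (fun p => p.1 * p.2⁻¹ = x)).card := by
  rw [coeff_mul']
  have h1 : ∀ g : G, (ind D).coeff g * (iv ℤ (ind D)).coeff (g⁻¹ * x) =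
      if g ∈ D ∧ x⁻¹ * g ∈ D then 1 else 0 := by
    intro g
    rw [iv_coeff, coeff_ind, coeff_ind, mul_inv_rev, inv_inv]
    split_ifs <;> simp_all
  rw [Finset.sum_congr rfl (fun g _ => h1 g), Finset.sum_boole]
  congr 1
  apply Finset.card_bij (fun g _ => (g, x⁻¹ * g))
  · intro g hg
    simp only [Finset.mem_filter, Finset.mem_univ, true_and] at hg
    simp only [Finset.mem_filter, Finset.mem_product]
    refine ⟨hg, ?_⟩
    rw [mul_inv_rev, inv_inv, ← mul_assoc, mul_inv_cancel, one_mul]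
  · intro a _ b _ hab
    simp only [Prod.mk.injEq] at hab
    exact hab.1
  · rintro ⟨a, b⟩ hab
    simp only [Finset.mem_filter, Finset.mem_product] at hab
    have h2 : x⁻¹ * a = b := by
      rw [← hab.2, mul_inv_rev, inv_inv, mul_assoc, inv_mul_cancel, mul_one]
    refine ⟨a, ?_, ?_⟩
    · simp only [Finset.mem_filter, Finset.mem_univ, true_and]
      rw [h2]
      exact hab.1
    · rw [h2]

theorem ind_mul_iv : ind D * iv ℤ (ind D) =
    ((k ^ 2 : ℕ) : MonoidAlgebra ℤ G) + ind Finset.univ - sig S := by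
  classical
  have hk := h.hk
  ext x
  rw [h.coeff_ind_mul_iv, coeff_sub, coeff_add, Finsupp.sub_apply, Finsupp.add_apply, coeff_natCast,
    Finsupp.single_apply, coeff_ind, if_pos (Finset.mem_univ x)]
  by_cases hx : x = 1
  · subst hx
    have h1 : ((D ×ˢ D).filter (fun p => p.1 * p.2⁻¹ = 1)).card = (k - 1) ^ 2 := by
      rw [← h.hD]
      symm
      apply Finset.card_bij (fun g _ => (g, g))
      · intro g hg
        simp [hg]
      · intro a _ b _ hab
        simp only [Prod.mk.injEq] at hab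
        exact hab.1
      · rintro ⟨a, b⟩ hab
        simp only [Finset.mem_filter, Finset.mem_product] at hab
        have h2 : a = b := mul_inv_eq_one.1 hab.2
        subst h2
        exact ⟨a, hab.1.1, rfl⟩
    have h2 : (sig S).coeff 1 = 2 * k := by
      rw [coeff_sig, Finset.sum_congr rfl (fun K _ => by
        rw [coeff_sub', if_pos K.one_mem] : ∀ K ∈ S, (sub K).coeff 1 = (1 : ℤ))]
      simp [h.hS]
    rw [h1, h2, if_pos rfl]
    obtain ⟨j, rfl⟩ : ∃ j, k = j + 1 := ⟨k - 1, by omega⟩
    rw [Nat.add_sub_cancel]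
    push_cast
    ring
  · rw [if_neg (fun h1 => hx h1.symm)]
    by_cases hxS : ∃ K ∈ S, x ∈ K
    · obtain ⟨K, hK, hxK⟩ := hxS
      rw [h.exists_ne_mem_of_mem hx hK hxK]
      have h1 : ((D ×ˢ D).filter (fun p => p.1 * p.2⁻¹ = x)) = ∅ := by
        rw [Finset.filter_eq_empty_iff]
        rintro ⟨a, b⟩ hab h2
        rw [Finset.mem_product] at hab
        simp only at hab h2
        have h3 := h.hD1 K hK a hab.1 b hab.2 (h2 ▸ hxK)
        subst h3
        rw [mul_inv_cancel] at h2
        exact hx h2.symm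
      rw [h1]
      simp
    · push Not at hxS
      have h1 : (sig S).coeff x = 0 := by
        rw [coeff_sig]
        apply Finset.sum_eq_zero
        intro K hK
        rw [coeff_sub', if_neg (hxS K hK)]
      have h2 : ((D ×ˢ D).filter (fun p => p.1 * p.2⁻¹ = x)).card = 1 := by
        rw [Finset.card_eq_one]
        obtain ⟨p, hp, hu⟩ := h.hD2 x hxS
        refine ⟨p, ?_⟩
        ext q
        simp only [Finset.mem_filter, Finset.mem_product, Finset.mem_singleton]
        constructor
        · rintro ⟨⟨h3, h4⟩, h5⟩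
          exact hu q ⟨h3, h4, h5⟩
        · rintro rfl
          exact ⟨⟨hp.1, hp.2.1⟩, hp.2.2⟩
      rw [h1, h2]
      simp

theorem pow_eq_one (g : G) : g ^ N = 1 := by
  classical
  have hk := h.hk
  obtain ⟨K, K', hK, hK', hne⟩ : ∃ K K', K ∈ S ∧ K' ∈ S ∧ K ≠ K' := by
    have h1 : 1 < S.card := by rw [h.hS]; omega
    obtain ⟨a, ha, b, hb, hab⟩ := Finset.one_lt_card.1 h1
    exact ⟨a, b, ha, hb, hab⟩
  have h1 := sub_mul_sub K K' (h.hdisj K hK K' hK' hne)
    (by rw [h.hcard K hK, h.hcard K' hK', h.hG, sq])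
  have h2 : (sub K * sub K').coeff g = 1 := by
    rw [h1, coeff_ind, if_pos (Finset.mem_univ g)]
  rw [coeff_mul'] at h2
  obtain ⟨a, _, ha⟩ := Finset.exists_ne_zero_of_sum_ne_zero (by rw [h2]; exact one_ne_zero)
  rw [coeff_sub', coeff_sub'] at ha
  have haK : a ∈ K := by
    by_contra hc
    rw [if_neg hc, zero_mul] at ha
    exact ha rfl
  have haK' : a⁻¹ * g ∈ K' := by
    by_contra hc
    rw [if_neg hc, mul_zero] at ha
    exact ha rfl
  have h3 : a ^ N = 1 := by
    have := pow_card_eq_one' (x := (⟨a, haK⟩ : K))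
    rw [h.hcard K hK] at this
    simpa using congrArg Subtype.val this
  have h4 : (a⁻¹ * g) ^ N = 1 := by
    have := pow_card_eq_one' (x := (⟨a⁻¹ * g, haK'⟩ : K'))
    rw [h.hcard K' hK'] at this
    simpa using congrArg Subtype.val this
  have h5 : g = a * (a⁻¹ * g) := by group
  rw [h5, mul_pow, h3, h4, one_mul]

end Design

end Main

end Pool.Agent.E8helper90.TypeH
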