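import Mathlib

set_option autoImplicit false
set_option linter.unusedSectionVars false

/-!
# Subplanes of finite projective planes
-/

namespace Pool.Agent.E8helper90.TypeH

open Configuration Configuration.ProjectivePlane

section

variable {P L : Type*} [Membership P L] [ProjectivePlane P L]

/-- no line contains the three points -/
def NC (L : Type*) {P : Type*} [Membership P L] (a b c : P) : Prop :=
  ∀ l : L, ¬ (a ∈ l ∧ b ∈ l ∧ c ∈ l)

theorem line_unique {p q : P} {l m : L} (hpq : p ≠ q) (h1 : p ∈ l) (h2 : q ∈ l) (h3 : p ∈ m)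
    (h4 : q ∈ m) : l = m :=
  (Nondegenerate.eq_or_eq h1 h2 h3 h4).resolve_left hpq

theorem point_unique {p q : P} {l m : L} (hlm : l ≠ m) (h1 : p ∈ l) (h2 : q ∈ l) (h3 : p ∈ m)
    (h4 : q ∈ m) : p = q :=
  (Nondegenerate.eq_or_eq h1 h2 h3 h4).resolve_right hlm

theorem exists_line_of_ne {p q : P} (h : p ≠ q) : ∃ l : L, p ∈ l ∧ q ∈ l :=
  ⟨HasLines.mkLine h, HasLines.mkLine_ax h⟩

theorem exists_point_of_ne {l m : L} (h : l ≠ m) : ∃ p : P, p ∈ l ∧ p ∈ m :=
  ⟨HasPoints.mkPoint h, HasPoints.mkPoint_ax h⟩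

theorem NC.ne {a b c : P} (h : NC L a b c) : a ≠ b := by
  rintro rfl
  by_cases hac : a = c
  · subst hac
    obtain ⟨p, hp⟩ : ∃ p : P, p ≠ a := by
      obtain ⟨l, hl⟩ := Nondegenerate.exists_line (L := L) a
      obtain ⟨p₁, p₂, p₃, l₁, l₂, l₃, h₁₂, h₁₃, h₂₁, h₂₂, h₂₃, h₃₁, h₃₂, h₃₃⟩ :=
        @exists_config P L _ _
      by_cases h1 : p₁ = a
      · refine ⟨p₂, ?_⟩
        rintro rfl
        exact h₁₂ (h1 ▸ h₂₂)
      · exact ⟨p₁, h1⟩
    obtain ⟨l, hl⟩ := exists_line_of_ne (L := L) hp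
    exact h l ⟨hl.2, hl.2, hl.2⟩
  · obtain ⟨l, hl⟩ := exists_line_of_ne (L := L) hac
    exact h l ⟨hl.1, hl.1, hl.2⟩

theorem NC.rot {a b c : P} (h : NC L a b c) : NC L b c a :=
  fun l hl => h l ⟨hl.2.2, hl.1, hl.2.1⟩

theorem NC.swap {a b c : P} (h : NC L a b c) : NC L b a c :=
  fun l hl => h l ⟨hl.2.1, hl.1, hl.2.2⟩

/-- A closed substructure containing a quadrangle is a subplane; Bruck's bound for its order. -/
theorem subplane [Finite P] [Finite L] (P' : Set P) (L' : Set L)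
    (hjoin : ∀ p ∈ P', ∀ q ∈ P', p ≠ q → ∀ l : L, p ∈ l → q ∈ l → l ∈ L')
    (hmeet : ∀ l ∈ L', ∀ m ∈ L', l ≠ m → ∀ p : P, p ∈ l → p ∈ m → p ∈ P')
    (a b c d : P) (ha : a ∈ P') (hb : b ∈ P') (hc : c ∈ P') (hd : d ∈ P')
    (habc : NC L a b c) (habd : NC L a b d) (hacd : NC L a c d) (hbcd : NC L b c d) :
    ∃ m : ℕ, P'.ncard = m ^ 2 + m + 1 ∧ L'.ncard = m ^ 2 + m + 1 ∧
      (∀ l ∈ L', {p | p ∈ P' ∧ p ∈ l}.ncard = m + 1) ∧
      (P' ≠ Set.univ → m ^ 2 + m ≤ order P L ∨ m ^ 2 = order P L) := by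
  classical
  have : Fintype P := Fintype.ofFinite P
  have : Fintype L := Fintype.ofFinite L
  have hab := habc.ne
  have hac := habc.rot.rot.ne.symm
  have hcd := hacd.rot.ne
  have hbc := habc.rot.ne
  let I1 : Membership P' L' := ⟨fun l p => p.1 ∈ l.1⟩
  have hmem : ∀ (p : P') (l : L'), p ∈ l ↔ p.1 ∈ l.1 := fun _ _ => Iff.rfl
  let jn : ∀ {p q : P}, p ∈ P' → q ∈ P' → p ≠ q → L' := fun {p q} hp hq hpq =>
    ⟨HasLines.mkLine hpq, hjoin p hp q hq hpq _ (HasLines.mkLine_ax hpq).1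
      (HasLines.mkLine_ax hpq).2⟩
  have jn1 : ∀ {p q : P} (hp : p ∈ P') (hq : q ∈ P') (hpq : p ≠ q), p ∈ (jn hp hq hpq).1 :=
    fun hp hq hpq => (HasLines.mkLine_ax hpq).1
  have jn2 : ∀ {p q : P} (hp : p ∈ P') (hq : q ∈ P') (hpq : p ≠ q), q ∈ (jn hp hq hpq).1 :=
    fun hp hq hpq => (HasLines.mkLine_ax hpq).2
  let I2 : ProjectivePlane P' L' :=
    { exists_point := by
        intro l
        by_cases h1 : a ∈ l.1
        · by_cases h2 : b ∈ l.1
          · refine ⟨⟨c, hc⟩, fun h3 => habc l.1 ⟨h1, h2, h3⟩⟩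
          · exact ⟨⟨b, hb⟩, h2⟩
        · exact ⟨⟨a, ha⟩, h1⟩
      exists_line := by
        intro p
        by_cases h1 : p.1 ∈ (jn ha hb hab).1
        · by_cases h2 : p.1 ∈ (jn ha hc hac).1
          · have h3 : p.1 = a := by
              apply point_unique (l := (jn ha hb hab).1) (m := (jn ha hc hac).1) _ h1
                (jn1 ha hb hab) h2 (jn1 ha hc hac)
              intro h4
              apply habc (jn ha hb hab).1
              refine ⟨jn1 ha hb hab, jn2 ha hb hab, ?_⟩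
              rw [h4]
              exact jn2 ha hc hac
            refine ⟨jn hb hc hbc, fun h4 => ?_⟩
            rw [hmem, h3] at h4
            exact habc _ ⟨h4, jn1 hb hc hbc, jn2 hb hc hbc⟩
          · exact ⟨jn ha hc hac, h2⟩
        · exact ⟨jn ha hb hab, h1⟩
      eq_or_eq := by
        intro p₁ p₂ l₁ l₂ h1 h2 h3 h4
        rcases Nondegenerate.eq_or_eq (P := P) (L := L) h1 h2 h3 h4 with h | h
        · left; exact Subtype.ext h
        · right; exact Subtype.ext h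
      mkPoint := fun {l₁ l₂} h =>
        ⟨HasPoints.mkPoint (fun h' => h (Subtype.ext h') : l₁.1 ≠ l₂.1),
          hmeet l₁.1 l₁.2 l₂.1 l₂.2 (fun h' => h (Subtype.ext h')) _
            (HasPoints.mkPoint_ax _).1 (HasPoints.mkPoint_ax _).2⟩
      mkPoint_ax := fun {l₁ l₂} h => HasPoints.mkPoint_ax (fun h' => h (Subtype.ext h') : l₁.1 ≠ l₂.1)
      mkLine := fun {p₁ p₂} h => jn p₁.2 p₂.2 (fun h' => h (Subtype.ext h'))
      mkLine_ax := fun {p₁ p₂} h =>
        HasLines.mkLine_ax (fun h' => h (Subtype.ext h') : p₁.1 ≠ p₂.1)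
      exists_config := by
        refine ⟨⟨d, hd⟩, ⟨a, ha⟩, ⟨b, hb⟩, jn hc hd hcd, jn ha hb hab, jn ha hc hac,
          ?_, ?_, ?_, ?_, ?_, ?_, ?_, ?_⟩
        · exact fun h => habd _ ⟨jn1 ha hb hab, jn2 ha hb hab, h⟩
        · exact fun h => hacd _ ⟨jn1 ha hc hac, jn2 ha hc hac, h⟩
        · exact fun h => hacd _ ⟨h, jn1 hc hd hcd, jn2 hc hd hcd⟩
        · exact jn1 ha hb hab
        · exact jn1 ha hc hac
        · exact fun h => hbcd _ ⟨h, jn1 hc hd hcd, jn2 hc hd hcd⟩
        · exact jn2 ha hb hab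
        · exact fun h => habc _ ⟨jn1 ha hc hac, h, jn2 ha hc hac⟩ }
  set m := order P' L' with hm
  set n := order P L with hn
  have hP' : P'.ncard = m ^ 2 + m + 1 := by
    rw [← Nat.card_coe_set_eq, Nat.card_eq_fintype_card, card_points P' L']
  have hL' : L'.ncard = m ^ 2 + m + 1 := by
    rw [← Nat.card_coe_set_eq, Nat.card_eq_fintype_card, card_lines P' L']
  have hl' : ∀ l ∈ L', {p | p ∈ P' ∧ p ∈ l}.ncard = m + 1 := by
    intro l hl
    rw [hm, ← pointCount_eq P' (⟨l, hl⟩ : L'), pointCount, ← Nat.card_coe_set_eq]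
    apply Nat.card_congr
    exact
      { toFun := fun p => ⟨⟨p.1, p.2.1⟩, p.2.2⟩
        invFun := fun p => ⟨p.1.1, p.1.2, p.2⟩
        left_inv := fun p => rfl
        right_inv := fun p => rfl }
  refine ⟨m, hP', hL', hl', ?_⟩
  intro hne
  by_cases hcase : ∃ x : P, ∀ l ∈ L', x ∉ l
  · left
    obtain ⟨x, hx⟩ := hcase
    have hxP : ∀ p : P', x ≠ p.1 := by
      rintro p rfl
      by_cases h : p.1 = a
      · exact hx (jn ha hb hab).1 (jn ha hb hab).2 (h ▸ jn1 ha hb hab)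
      · exact hx (jn p.2 ha h).1 (jn p.2 ha h).2 (jn1 p.2 ha h)
    have hf : Function.Injective
        (fun p : P' => (⟨HasLines.mkLine (hxP p), (HasLines.mkLine_ax (hxP p)).1⟩ :
          {l : L // x ∈ l})) := by
      intro p q hpq
      simp only [Subtype.mk.injEq] at hpq
      by_contra hne'
      apply hx (HasLines.mkLine (hxP p)) _ (HasLines.mkLine_ax (hxP p)).1
      apply hjoin p.1 p.2 q.1 q.2 (fun h => hne' (Subtype.ext h))
      · exact (HasLines.mkLine_ax (hxP p)).2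
      · rw [hpq]
        exact (HasLines.mkLine_ax (hxP q)).2
    have h1 := Nat.card_le_card_of_injective _ hf
    have h2 : Nat.card {l : L // x ∈ l} = n + 1 := lineCount_eq L x
    rw [h2, Nat.card_coe_set_eq, hP'] at h1
    omega
  · right
    push Not at hcase
    let f : (Σ l : L', {p : P // p ∈ l.1 ∧ p ∉ P'}) → {p : P // p ∉ P'} :=
      fun x => ⟨x.2.1, x.2.2.2⟩
    have hf : Function.Bijective f := by
      constructor
      · rintro ⟨l, p⟩ ⟨l', p'⟩ h
        have h1 : p.1 = p'.1 := congrArg Subtype.val h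
        have h2 : l = l' := by
          by_contra hll
          apply p.2.2
          apply hmeet l.1 l.2 l'.1 l'.2 (fun h => hll (Subtype.ext h)) _ p.2.1
          rw [h1]
          exact p'.2.1
        subst h2
        have h3 : p = p' := Subtype.ext h1
        subst h3
        rfl
      · rintro ⟨p, hp⟩
        obtain ⟨l, hl, hpl⟩ := hcase p
        exact ⟨⟨⟨l, hl⟩, ⟨p, hpl, hp⟩⟩, rfl⟩
    have h1 := Nat.card_congr (Equiv.ofBijective f hf)
    rw [Nat.card_sigma] at h1
    have h2 : ∀ l : L', Nat.card {p : P // p ∈ l.1 ∧ p ∉ P'} + (m + 1) = n + 1 := by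
      intro l
      have h3 : {p : P | p ∈ l.1}.ncard = n + 1 := by
        rw [← Nat.card_coe_set_eq]
        exact pointCount_eq P l.1
      rw [← h3, ← hl' l.1 l.2]
      have h4 : Nat.card {p : P // p ∈ l.1 ∧ p ∉ P'} = {p : P | p ∈ l.1 ∧ p ∉ P'}.ncard :=
        (Nat.card_coe_set_eq _)
      rw [h4, ← Set.ncard_union_eq]
      · congr 1
        ext p
        simp only [Set.mem_union, Set.mem_ofPred_eq]
        tauto
      · rw [Set.disjoint_left]
        intro p hp hp'
        exact hp.2 hp'.1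
    have h3 : ∀ l : L', Nat.card {p : P // p ∈ l.1 ∧ p ∉ P'} = n - m := fun l => by
      have := h2 l; omega
    have hmn : m ≤ n := by
      have := h2 (jn ha hb hab); omega
    rw [Finset.sum_congr rfl (fun l _ => h3 l), Finset.sum_const, Finset.card_univ,
      ← Nat.card_eq_fintype_card, Nat.card_coe_set_eq, hL', smul_eq_mul] at h1
    have h4 : Nat.card {p : P // p ∉ P'} + P'.ncard = n ^ 2 + n + 1 := by
      rw [hn, ← card_points P L, ← Nat.card_eq_fintype_card, ← Nat.card_coe_set_eq]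
      have h5 : Nat.card {p : P // p ∉ P'} = (P'ᶜ : Set P).ncard := (Nat.card_coe_set_eq _)
      rw [h5, Nat.card_coe_set_eq, add_comm]
      exact Set.ncard_add_ncard_compl P'
    rw [← h1, hP'] at h4
    have hne2 : n ≠ m := by
      intro h5
      rw [h5, Nat.sub_self, mul_zero, zero_add] at h4
      apply hne
      apply Set.eq_of_subset_of_ncard_le (Set.subset_univ _)
      rw [Set.ncard_univ, Nat.card_eq_fintype_card, card_points P L, ← hn, h5, hP']
    obtain ⟨j, hj⟩ : ∃ j, n = m + j := ⟨n - m, by omega⟩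
    have hj0 : j ≠ 0 := by rintro rfl; exact hne2 hj
    have h6 : n - m = j := by omega
    rw [h6, hj] at h4
    rw [hj]
    have h7 : j * (m ^ 2) = j * (m + j) := by nlinarith
    exact Nat.eq_of_mul_eq_mul_left (Nat.pos_of_ne_zero hj0) h7

end

end Pool.Agent.E8helper90.TypeH
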