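import Mathlib
import Pool.Agent.E8helper90.TypeH.Subplane

set_option autoImplicit false
set_option linter.unusedSectionVars false

/-!
# Fixed substructures of subgroups of a quasiregular group of type (h)
-/

namespace Pool.Agent.E8helper90.TypeH

open Configuration Configuration.ProjectivePlane

/-- the hypotheses on a plane of type (h) -/
structure IsTypeH (P L G : Type*) [Membership P L] [ProjectivePlane P L] [Group G] [MulAction G P]
    [MulAction G L] (k N : ℕ) : Prop where
  hk : 3 ≤ k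
  hN : N + k = k ^ 2 + 1
  ord : order P L = k ^ 2
  faith : ∀ g : G, (∀ p : P, g • p = p) → g = 1
  mem : ∀ (g : G) (p : P) (l : L), p ∈ l ↔ g • p ∈ g • l
  qP : ∀ (g : G) (p q : P), q ∈ MulAction.orbit G p → g • p = p → g • q = q
  qL : ∀ (g : G) (l m : L), m ∈ MulAction.orbit G l → g • l = l → g • m = m
  big : (k ^ 2) ^ 2 + k ^ 2 + 1 < 2 * N ^ 2
  hG : Nat.card G = N ^ 2
  orb : Nat.card (MulAction.orbitRel.Quotient G P) = 2 * k + 1
  nfp : ¬ ∃ p : P, ∀ g : G, g • p = p
  nfl : ¬ ∃ l : L, ∀ g : G, g • l = l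

/-- the fixed points of a subgroup -/
def FP (P : Type*) {G : Type*} [Group G] [MulAction G P] (T : Subgroup G) : Set P :=
  {p | ∀ t ∈ T, t • p = p}

/-- a free action of a subgroup on a set of points -/
theorem card_dvd_of_free {P G : Type*} [Group G] [Finite G] [MulAction G P] [Finite P]
    (T : Subgroup G) (X : Set P)
    (hX : ∀ t ∈ T, ∀ p ∈ X, t • p ∈ X) (hfree : ∀ t ∈ T, ∀ p ∈ X, t • p = p → t = 1) :
    Nat.card T ∣ X.ncard := by
  classical
  let A : SubMulAction T P :=
    { carrier := X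
      smul_mem' := fun t {p} hp => hX t.1 t.2 p hp }
  have : Fintype T := Fintype.ofFinite T
  have : Fintype A := Fintype.ofFinite A
  have h0 : Nat.card A = X.ncard := Nat.card_coe_set_eq X
  have h1 := MulAction.card_eq_sum_card_group_div_card_stabilizer T A
  have h2 : ∀ p : A, MulAction.stabilizer T p = ⊥ := by
    intro p
    rw [Subgroup.eq_bot_iff_forall]
    intro t ht
    rw [MulAction.mem_stabilizer_iff] at ht
    have h3 : (t : G) • (p : P) = (p : P) := congrArg Subtype.val ht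
    have h4 := hfree t.1 t.2 p.1 p.2 h3
    exact Subtype.ext h4
  rw [← h0, Nat.card_eq_fintype_card (α := T), Nat.card_eq_fintype_card (α := A), h1]
  apply Finset.dvd_sum
  intro ω _
  have h5 : Fintype.card (MulAction.stabilizer T ω.out) = 1 := by
    rw [← Nat.card_eq_fintype_card, h2]
    exact Subgroup.card_bot
  rw [h5, Nat.div_one]

section

variable {P L G : Type*} [Membership P L] [ProjectivePlane P L] [Group G] [MulAction G P]
  [MulAction G L] [Finite P] [Finite L] [Finite G] {k N : ℕ}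

namespace IsTypeH

variable (h : IsTypeH P L G k N)

include h

theorem kpos : 0 < k := by have := h.hk; omega

theorem N_ge : 7 ≤ N := by
  have h1 := h.hk
  have h2 := h.hN
  nlinarith

theorem N_sub : N - 1 = k ^ 2 - k := by
  have h1 := h.hk
  have h2 := h.hN
  omega

theorem coprime_N : Nat.Coprime (N ^ 2) (k ^ 2 - k) := by
  rw [← h.N_sub]
  apply Nat.Coprime.pow_left
  have := h.N_ge
  obtain ⟨j, hj⟩ : ∃ j, N = j + 1 := ⟨N - 1, by omega⟩
  rw [hj, Nat.add_sub_cancel]
  simp

theorem coprime_k2 : Nat.Coprime (N ^ 2) (k ^ 2) := by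
  apply Nat.Coprime.pow
  have h2 := h.hN
  rw [Nat.coprime_comm]
  apply Nat.coprime_of_dvd
  intro p hp h3 h4
  have h5 : p ∣ k ^ 2 + 1 := h2 ▸ dvd_add h4 h3
  have h6 : p ∣ 1 := (Nat.dvd_add_right (Dvd.dvd.pow h3 two_ne_zero)).1 h5
  exact hp.one_lt.ne' (Nat.dvd_one.1 h6)

theorem smul_line_eq {g : G} {p q : P} {l : L} (hpq : p ≠ q) (h1 : p ∈ l) (h2 : q ∈ l)
    (h3 : g • p = p) (h4 : g • q = q) : g • l = l := by
  apply line_unique (P := P) hpq _ _ h1 h2
  · have := (h.mem g p l).1 h1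
    rwa [h3] at this
  · have := (h.mem g q l).1 h2
    rwa [h4] at this

theorem smul_point_eq {g : G} {p : P} {l m : L} (hlm : l ≠ m) (h1 : p ∈ l) (h2 : p ∈ m)
    (h3 : g • l = l) (h4 : g • m = m) : g • p = p := by
  apply point_unique (L := L) hlm _ h1 _ h2
  · have := (h.mem g p l).1 h1
    rwa [h3] at this
  · have := (h.mem g p m).1 h2
    rwa [h4] at this

theorem fix_subplane (T : Subgroup G) (a b c d : P) (ha : a ∈ FP P T) (hb : b ∈ FP P T)
    (hc : c ∈ FP P T) (hd : d ∈ FP P T)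
    (habc : NC L a b c) (habd : NC L a b d) (hacd : NC L a c d) (hbcd : NC L b c d) :
    ∃ m : ℕ, (FP P T).ncard = m ^ 2 + m + 1 ∧ (FP L T).ncard = m ^ 2 + m + 1 ∧
      (∀ l ∈ FP L T, {p | p ∈ FP P T ∧ p ∈ l}.ncard = m + 1) ∧
      (T ≠ ⊥ → m ^ 2 + m ≤ k ^ 2 ∨ m ^ 2 = k ^ 2) := by
  obtain ⟨m, h1, h2, h3, h4⟩ := subplane (FP P T) (FP L T)
    (fun p hp q hq hpq l hl hl' t ht => h.smul_line_eq hpq hl hl' (hp t ht) (hq t ht))
    (fun l hl m hm hlm p hp hp' t ht => h.smul_point_eq hlm hp hp' (hl t ht) (hm t ht))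
    a b c d ha hb hc hd habc habd hacd hbcd
  refine ⟨m, h1, h2, h3, fun hT => ?_⟩
  rw [← h.ord]
  apply h4
  intro h5
  apply hT
  rw [Subgroup.eq_bot_iff_forall]
  intro t ht
  apply h.faith
  intro p
  have : p ∈ FP P T := by rw [h5]; trivial
  exact this t ht

theorem card_line (l : L) : {p : P | p ∈ l}.ncard = k ^ 2 + 1 := by
  rw [← Nat.card_coe_set_eq, ← h.ord]
  exact pointCount_eq P l

theorem card_pencil (p : P) : {l : L | p ∈ l}.ncard = k ^ 2 + 1 := by
  rw [← Nat.card_coe_set_eq, ← h.ord]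
  exact lineCount_eq L p

theorem fix_bound (T : Subgroup G) (hT : T ≠ ⊥) (a b c d : P) (ha : a ∈ FP P T)
    (hb : b ∈ FP P T) (hc : c ∈ FP P T) (hd : d ∈ FP P T)
    (habc : NC L a b c) (habd : NC L a b d) (hacd : NC L a c d) (hbcd : NC L b c d) :
    ∃ m : ℕ, m + 1 ≤ k ∧ (FP P T).ncard = m ^ 2 + m + 1 ∧ (FP L T).ncard = m ^ 2 + m + 1 ∧
      (∀ l ∈ FP L T, {p | p ∈ FP P T ∧ p ∈ l}.ncard = m + 1) := by
  obtain ⟨m, h1, h2, h3, h4⟩ := h.fix_subplane T a b c d ha hb hc hd habc habd hacd hbcd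
  have hk := h.hk
  by_cases hm : m + 1 ≤ k
  · exact ⟨m, hm, h1, h2, h3⟩
  exfalso
  have hmk : m = k := by
    rcases h4 hT with h5 | h5
    · exfalso
      nlinarith
    · exact Nat.pow_left_injective (by norm_num : (2 : ℕ) ≠ 0) h5
  subst hmk
  -- a fixed line
  obtain ⟨l, hl⟩ : (FP L T).Nonempty := by
    rw [← Set.ncard_pos, h2]; omega
  set X : Set P := {p | p ∈ l ∧ p ∉ FP P T} with hX
  have hXc : X.ncard = m ^ 2 - m := by
    have h5 : X.ncard + {p | p ∈ FP P T ∧ p ∈ l}.ncard = m ^ 2 + 1 := by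
      rw [← h.card_line l, ← Set.ncard_union_eq]
      · congr 1
        ext p
        simp only [hX, Set.mem_union, Set.mem_ofPred_eq]
        tauto
      · rw [Set.disjoint_left]
        intro p hp hp'
        exact hp.2 hp'.1
    rw [h3 l hl] at h5
    have : m ≤ m ^ 2 := Nat.le_self_pow (by norm_num) m
    omega
  have hdvd : Nat.card T ∣ X.ncard := by
    apply card_dvd_of_free
    · intro t ht p hp
      refine ⟨?_, ?_⟩
      · have := (h.mem t p l).1 hp.1
        rwa [hl t ht] at this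
      · intro h5
        apply hp.2
        have h6 : p = t • p := by
          have h7 := h5 t⁻¹ (T.inv_mem ht)
          rwa [inv_smul_smul] at h7
        rw [h6]
        exact h5
    · intro t ht p hp htp
      by_contra ht1
      -- the group generated by `t` fixes too much
      have hle : Subgroup.zpowers t ≤ T := by
        rw [Subgroup.zpowers_le]; exact ht
      have hsub : FP P T ⊆ FP P (Subgroup.zpowers t) := fun q hq s hs => hq s (hle hs)
      obtain ⟨m', g1, -, -, g4⟩ := h.fix_subplane (Subgroup.zpowers t) a b c d (hsub ha) (hsub hb)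
        (hsub hc) (hsub hd) habc habd hacd hbcd
      have g5 : m' ≤ m := by
        rcases g4 (by rwa [Ne, Subgroup.zpowers_eq_bot]) with g6 | g6
        · nlinarith
        · exact (Nat.pow_left_injective (by norm_num : (2 : ℕ) ≠ 0) g6).le
      have g7 : (FP P T).ncard < (FP P (Subgroup.zpowers t)).ncard := by
        refine Set.ncard_lt_ncard ?_ (Set.toFinite _)
        refine ⟨hsub, fun g8 => hp.2 (g8 ?_)⟩
        intro s hs
        have g9 : t ∈ MulAction.stabilizer G p := htp
        have g10 : Subgroup.zpowers t ≤ MulAction.stabilizer G p := by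
          rw [Subgroup.zpowers_le]; exact g9
        exact g10 hs
      rw [h1, g1] at g7
      nlinarith
  rw [hXc] at hdvd
  have h6 : Nat.card T ∣ N ^ 2 := by
    rw [← h.hG]
    exact Subgroup.card_subgroup_dvd_card T
  have h7 : Nat.card T = 1 := Nat.eq_one_of_dvd_coprimes h.coprime_N h6 hdvd
  exact hT (Subgroup.eq_bot_of_card_eq T h7)

end IsTypeH

end

end Pool.Agent.E8helper90.TypeH
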