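import Mathlib
import Pool.Agent.E8helper90.TypeH.Fix

set_option autoImplicit false
set_option linter.unusedSectionVars false

/-!
# Point orbits of a quasiregular group of type (h)
-/

namespace Pool.Agent.E8helper90.TypeH

open Configuration Configuration.ProjectivePlane

section

variable {P L G : Type*} [Membership P L] [ProjectivePlane P L] [Group G] [MulAction G P]
  [MulAction G L] [Finite P] [Finite L] [Finite G] {k N : ℕ}

namespace IsTypeH

variable (h : IsTypeH P L G k N)

include h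

/-- no orbit is contained in a line -/
theorem orbit_not_line (p : P) (l : L) : ∃ q ∈ MulAction.orbit G p, q ∉ l := by
  by_contra hcon
  push Not at hcon
  have hp : ∃ g : G, g • p ≠ p := by
    by_contra h1
    push Not at h1
    exact h.nfp ⟨p, h1⟩
  obtain ⟨g, hg⟩ := hp
  apply h.nfl
  refine ⟨l, fun s => ?_⟩
  have h1 : p ∈ MulAction.orbit G p := MulAction.mem_orbit_self p
  have h2 : g • p ∈ MulAction.orbit G p := MulAction.mem_orbit p g
  have h3 : s • p ∈ MulAction.orbit G p := MulAction.mem_orbit p s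
  have h4 : s • g • p ∈ MulAction.orbit G p := by
    rw [← mul_smul]; exact MulAction.mem_orbit p (s * g)
  have h5 : s • p ≠ s • g • p := by
    intro h6
    exact hg ((MulAction.injective s h6).symm)
  exact line_unique (P := P) h5 ((h.mem s p l).1 (hcon p h1)) ((h.mem s (g • p) l).1 (hcon _ h2))
    (hcon _ h3) (hcon _ h4)

/-- an orbit with three points on a line contains a quadrangle -/
theorem quad_of_three (p x y z : P) (hx : x ∈ MulAction.orbit G p) (hy : y ∈ MulAction.orbit G p)
    (hz : z ∈ MulAction.orbit G p) (hxy : x ≠ y) (hxz : x ≠ z) (hyz : y ≠ z) (l : L)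
    (hxl : x ∈ l) (hyl : y ∈ l) (hzl : z ∈ l) :
    ∃ a b c d : P, a ∈ MulAction.orbit G p ∧ b ∈ MulAction.orbit G p ∧ c ∈ MulAction.orbit G p ∧
      d ∈ MulAction.orbit G p ∧ NC L a b c ∧ NC L a b d ∧ NC L a c d ∧ NC L b c d := by
  obtain ⟨c, hc, hcl⟩ := h.orbit_not_line p l
  -- a second point outside `l`
  have hsec : ∃ e ∈ MulAction.orbit G p, e ∉ l ∧ e ≠ c := by
    by_contra hcon
    push Not at hcon
    have hall : ∀ e ∈ MulAction.orbit G p, e ≠ c → e ∈ l := by
      intro e he hec
      by_contra hel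
      exact hec (hcon e he hel)
    obtain ⟨g, hg⟩ : ∃ g : G, g • c = x := by
      have h1 : x ∈ MulAction.orbit G c := by
        rw [MulAction.orbit_eq_iff.2 hc]; exact hx
      exact h1
    have hmo : ∀ q : P, q ∈ MulAction.orbit G p → g • q ∈ MulAction.orbit G p := by
      intro q hq
      rw [← MulAction.orbit_eq_iff.2 hq]
      exact MulAction.mem_orbit q g
    have hgl : g • l = l := by
      have hinj : Function.Injective (fun q : P => g • q) := MulAction.injective g
      by_cases h1 : g • x = c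
      · have h2 : g • y ≠ c := fun h3 => hxy (hinj (h1.trans h3.symm))
        have h3 : g • z ≠ c := fun h4 => hxz (hinj (h1.trans h4.symm))
        exact line_unique (P := P) (fun h4 => hyz (hinj h4)) ((h.mem g y l).1 hyl)
          ((h.mem g z l).1 hzl) (hall _ (hmo y hy) h2) (hall _ (hmo z hz) h3)
      · by_cases h2 : g • y = c
        · have h3 : g • z ≠ c := fun h4 => hyz (hinj (h2.trans h4.symm))
          exact line_unique (P := P) (fun h4 => hxz (hinj h4)) ((h.mem g x l).1 hxl)
            ((h.mem g z l).1 hzl) (hall _ (hmo x hx) h1) (hall _ (hmo z hz) h3)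
        · exact line_unique (P := P) (fun h4 => hxy (hinj h4)) ((h.mem g x l).1 hxl)
            ((h.mem g y l).1 hyl) (hall _ (hmo x hx) h1) (hall _ (hmo y hy) h2)
    apply hcl
    rw [h.mem g c l, hgl, hg]
    exact hxl
  obtain ⟨e, he, hel, hec⟩ := hsec
  -- the key: if `u, v` are two points of `l` off the line `c e`
  have key : ∀ u v : P, u ∈ MulAction.orbit G p → v ∈ MulAction.orbit G p → u ≠ v → u ∈ l → v ∈ l →
      NC L u c e → NC L v c e → ∃ a b c d : P, a ∈ MulAction.orbit G p ∧ b ∈ MulAction.orbit G p ∧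
        c ∈ MulAction.orbit G p ∧ d ∈ MulAction.orbit G p ∧ NC L a b c ∧ NC L a b d ∧ NC L a c d ∧
        NC L b c d := by
    intro u v hu hv huv hul hvl h1 h2
    refine ⟨u, v, c, e, hu, hv, hc, he, ?_, ?_, h1, h2⟩
    · rintro m ⟨h3, h4, h5⟩
      have := line_unique (P := P) huv h3 h4 hul hvl
      exact hcl (this ▸ h5)
    · rintro m ⟨h3, h4, h5⟩
      have := line_unique (P := P) huv h3 h4 hul hvl
      exact hel (this ▸ h5)
  obtain ⟨m, hcm, hem⟩ := exists_line_of_ne (L := L) hec.symm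
  have hml : m ≠ l := fun h1 => hcl (h1 ▸ hcm)
  have hnc : ∀ u : P, u ∉ m → NC L u c e := by
    rintro u hu m' ⟨h1, h2, h3⟩
    have := line_unique (P := P) hec.symm h2 h3 hcm hem
    exact hu (this ▸ h1)
  by_cases h1 : x ∈ m
  · have h2 : y ∉ m := fun h3 => hxy (point_unique (L := L) hml h1 h3 hxl hyl)
    have h3 : z ∉ m := fun h4 => hxz (point_unique (L := L) hml h1 h4 hxl hzl)
    exact key y z hy hz hyz hyl hzl (hnc y h2) (hnc z h3)
  · by_cases h2 : y ∈ m
    · have h3 : z ∉ m := fun h4 => hyz (point_unique (L := L) hml h2 h4 hyl hzl)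
      exact key x z hx hz hxz hxl hzl (hnc x h1) (hnc z h3)
    · exact key x y hx hy hxy hxl hyl (hnc x h1) (hnc y h2)

/-- an orbit with at least four points contains a quadrangle -/
theorem quad_of_orbit (p : P) (hp : 4 ≤ (MulAction.orbit G p).ncard) :
    ∃ a b c d : P, a ∈ MulAction.orbit G p ∧ b ∈ MulAction.orbit G p ∧ c ∈ MulAction.orbit G p ∧
      d ∈ MulAction.orbit G p ∧ NC L a b c ∧ NC L a b d ∧ NC L a c d ∧ NC L b c d := by
  classical
  obtain ⟨a, b, ha, hb, hab⟩ : ∃ a b, a ∈ MulAction.orbit G p ∧ b ∈ MulAction.orbit G p ∧ a ≠ b := by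
    obtain ⟨a, ha, b, hb, hab⟩ := (Set.one_lt_ncard (Set.toFinite _)).1
      (show 1 < (MulAction.orbit G p).ncard by omega)
    exact ⟨a, b, ha, hb, hab⟩
  obtain ⟨l, hal, hbl⟩ := exists_line_of_ne (L := L) hab
  obtain ⟨c, hc, hcl⟩ := h.orbit_not_line p l
  have hac : a ≠ c := fun h1 => hcl (h1 ▸ hal)
  have hbc : b ≠ c := fun h1 => hcl (h1 ▸ hbl)
  obtain ⟨d, hd, hda, hdb, hdc⟩ : ∃ d ∈ MulAction.orbit G p, d ≠ a ∧ d ≠ b ∧ d ≠ c := by
    by_contra hcon
    push Not at hcon
    have h1 : MulAction.orbit G p ⊆ ({a, b, c} : Set P) := by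
      intro d hd
      by_cases h1 : d = a
      · simp [h1]
      · by_cases h2 : d = b
        · simp [h2]
        · simp [hcon d hd h1 h2]
    have h2 := Set.ncard_le_ncard h1 (Set.toFinite _)
    have h3 : ({a, b, c} : Set P).ncard ≤ 3 := by
      have : ({a, b, c} : Set P) = (({a, b, c} : Finset P) : Set P) := by simp
      rw [this, Set.ncard_coe_finset]
      exact Finset.card_le_three
    omega
  by_cases h1 : d ∈ l
  · exact h.quad_of_three p a b d ha hb hd hab hda.symm hdb.symm l hal hbl h1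
  obtain ⟨m, ham, hcm⟩ := exists_line_of_ne (L := L) hac
  by_cases h2 : d ∈ m
  · exact h.quad_of_three p a c d ha hc hd hac hda.symm hdc.symm m ham hcm h2
  obtain ⟨r, hbr, hcr⟩ := exists_line_of_ne (L := L) hbc
  by_cases h3 : d ∈ r
  · exact h.quad_of_three p b c d hb hc hd hbc hdb.symm hdc.symm r hbr hcr h3
  refine ⟨a, b, c, d, ha, hb, hc, hd, ?_, ?_, ?_, ?_⟩
  · rintro s ⟨h4, h5, h6⟩
    exact hcl (line_unique (P := P) hab h4 h5 hal hbl ▸ h6)
  · rintro s ⟨h4, h5, h6⟩
    exact h1 (line_unique (P := P) hab h4 h5 hal hbl ▸ h6)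
  · rintro s ⟨h4, h5, h6⟩
    exact h2 (line_unique (P := P) hac h4 h5 ham hcm ▸ h6)
  · rintro s ⟨h4, h5, h6⟩
    exact h3 (line_unique (P := P) hbc h4 h5 hbr hcr ▸ h6)

theorem stab_eq (p q : P) (hq : q ∈ MulAction.orbit G p) :
    MulAction.stabilizer G q = MulAction.stabilizer G p := by
  ext g
  rw [MulAction.mem_stabilizer_iff, MulAction.mem_stabilizer_iff]
  constructor
  · intro hg
    apply h.qP g q p _ hg
    rw [MulAction.orbit_eq_iff.2 hq]
    exact MulAction.mem_orbit_self p
  · exact h.qP g p q hq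

theorem orbit_subset_fix (p : P) : MulAction.orbit G p ⊆ FP P (MulAction.stabilizer G p) := by
  intro q hq t ht
  exact h.qP t p q hq ht

theorem card_orbit_mul (p : P) :
    (MulAction.orbit G p).ncard * Nat.card (MulAction.stabilizer G p) = N ^ 2 := by
  rw [← h.hG, ← MulAction.index_stabilizer, mul_comm]
  exact Subgroup.card_mul_index _

/-- a nonregular orbit has at most `N` points -/
theorem orbit_le (p : P) (hp : MulAction.stabilizer G p ≠ ⊥) :
    (MulAction.orbit G p).ncard ≤ N := by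
  have h7 := h.N_ge
  by_cases h4 : 4 ≤ (MulAction.orbit G p).ncard
  · obtain ⟨a, b, c, d, ha, hb, hc, hd, h1, h2, h3, h5⟩ := h.quad_of_orbit p h4
    have hs := h.orbit_subset_fix p
    obtain ⟨m, hm, hF, -, -⟩ := h.fix_bound _ hp a b c d (hs ha) (hs hb) (hs hc) (hs hd) h1 h2 h3 h5
    have h6 := Set.ncard_le_ncard hs (Set.toFinite _)
    rw [hF] at h6
    have hN := h.hN
    obtain ⟨j, hj⟩ : ∃ j, k = m + 1 + j := ⟨k - (m + 1), by omega⟩
    subst hj
    nlinarith
  · omega

theorem card_points' : Nat.card P = N * (N + 2 * k) := by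
  have : Fintype P := Fintype.ofFinite P
  rw [Nat.card_eq_fintype_card, card_points P L, h.ord]
  have hN := h.hN
  zify at hN ⊢
  have : (N : ℤ) = k ^ 2 + 1 - k := by linarith
  rw [this]; ring

theorem card_lines' : Nat.card L = N * (N + 2 * k) := by
  have : Fintype L := Fintype.ofFinite L
  rw [Nat.card_eq_fintype_card, card_lines P L, h.ord]
  have hN := h.hN
  zify at hN ⊢
  have : (N : ℤ) = k ^ 2 + 1 - k := by linarith
  rw [this]; ring

theorem card_lt : N * (N + 2 * k) < 2 * N ^ 2 := by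
  have h1 := h.big
  have hN := h.hN
  have h2 : (k ^ 2) ^ 2 + k ^ 2 + 1 = N * (N + 2 * k) := by
    zify at hN ⊢
    have : (N : ℤ) = k ^ 2 + 1 - k := by linarith
    rw [this]; ring
  omega

/-- **The orbit structure**: there is one regular orbit, and all other orbits have `N` points. -/
theorem orbit_structure : ∃ p₀ : P, MulAction.stabilizer G p₀ = ⊥ ∧
    ∀ p : P, p ∉ MulAction.orbit G p₀ → (MulAction.orbit G p).ncard = N := by
  classical
  have : Fintype P := Fintype.ofFinite P
  have : Fintype G := Fintype.ofFinite G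
  set Ω := MulAction.orbitRel.Quotient G P with hΩ
  have : Fintype Ω := Fintype.ofFinite Ω
  have h7 := h.N_ge
  have hk := h.hk
  set f : Ω → ℕ := fun ω => (MulAction.orbit G ω.out).ncard with hf
  have hsum : ∑ ω : Ω, f ω = N * (N + 2 * k) := by
    rw [← h.card_points', Nat.card_congr (MulAction.selfEquivSigmaOrbits G P), Nat.card_sigma]
    refine Finset.sum_congr rfl fun ω _ => ?_
    rw [hf]
    exact (Nat.card_coe_set_eq _).symm
  have hcardΩ : Fintype.card Ω = 2 * k + 1 := by
    rw [← Nat.card_eq_fintype_card]; exact h.orb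
  have hreg : ∀ ω : Ω, MulAction.stabilizer G ω.out = ⊥ → f ω = N ^ 2 := by
    intro ω hω
    have h1 := h.card_orbit_mul ω.out
    rw [hω, Subgroup.card_bot, mul_one] at h1
    exact h1
  have hnon : ∀ ω : Ω, MulAction.stabilizer G ω.out ≠ ⊥ → f ω ≤ N := fun ω hω =>
    h.orbit_le ω.out hω
  obtain ⟨ω₀, hω₀⟩ : ∃ ω : Ω, MulAction.stabilizer G ω.out = ⊥ := by
    by_contra hcon
    push Not at hcon
    have h1 : ∑ ω : Ω, f ω ≤ ∑ _ω : Ω, N := Finset.sum_le_sum fun ω _ => hnon ω (hcon ω)
    rw [hsum, Finset.sum_const, Finset.card_univ, hcardΩ, smul_eq_mul] at h1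
    nlinarith
  have hsum2 : f ω₀ + ∑ ω ∈ Finset.univ.erase ω₀, f ω = N * (N + 2 * k) := by
    rw [← hsum]
    exact Finset.add_sum_erase Finset.univ f (Finset.mem_univ ω₀)
  rw [hreg ω₀ hω₀] at hsum2
  have hrest : ∀ ω ∈ Finset.univ.erase ω₀, f ω ≤ N := by
    intro ω hω
    apply hnon
    intro h1
    have h2 := Finset.single_le_sum (f := f) (fun ω _ => Nat.zero_le _) hω
    rw [hreg ω h1] at h2
    have h3 := h.card_lt
    omega
  have heq : ∀ ω ∈ Finset.univ.erase ω₀, f ω = N := by
    have h1 : ∑ ω ∈ Finset.univ.erase ω₀, f ω = ∑ _ω ∈ Finset.univ.erase ω₀, N := by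
      rw [Finset.sum_const, Finset.card_erase_of_mem (Finset.mem_univ _), Finset.card_univ, hcardΩ,
        smul_eq_mul, Nat.add_sub_cancel]
      nlinarith
    exact (Finset.sum_eq_sum_iff_of_le hrest).1 h1
  refine ⟨ω₀.out, hω₀, ?_⟩
  intro p hp
  set ω : Ω := Quotient.mk'' p with hω
  have hpω : p ∈ MulAction.orbit G ω.out := by
    have h1 : (Quotient.mk'' ω.out : Ω) = Quotient.mk'' p := by
      rw [← hω]
      exact Quotient.out_eq' ω
    have h2 : (MulAction.orbitRel G P) ω.out p := Quotient.exact h1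
    rw [MulAction.orbitRel_apply] at h2
    exact MulAction.mem_orbit_symm.1 h2
  have hne : ω ≠ ω₀ := by
    rintro h1
    apply hp
    rw [← h1]
    exact hpω
  rw [MulAction.orbit_eq_iff.2 hpω]
  exact heq ω (Finset.mem_erase.2 ⟨hne, Finset.mem_univ _⟩)

end IsTypeH

end

end Pool.Agent.E8helper90.TypeH
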