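import Mathlib
import Pool.Agent.E8helper90.TypeH.Orbits

set_option autoImplicit false
set_option linter.unusedSectionVars false

/-!
# Points and lines of a plane of type (h)
-/

namespace Pool.Agent.E8helper90.TypeH

open Configuration Configuration.ProjectivePlane

section

variable {P L G : Type*} [Membership P L] [ProjectivePlane P L] [Group G] [MulAction G P]
  [MulAction G L] [Finite P] [Finite L] [Finite G] {k N : ℕ}

/-- the orbit of `p₀` is regular and all the other orbits have `N` points -/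
def Base (G : Type*) {P : Type*} [Group G] [MulAction G P] (N : ℕ) (p₀ : P) : Prop :=
  MulAction.stabilizer G p₀ = ⊥ ∧
    ∀ p : P, p ∉ MulAction.orbit G p₀ → (MulAction.orbit G p).ncard = N

namespace IsTypeH

variable (h : IsTypeH P L G k N) {p₀ : P} (hb : Base G N p₀)

include h

theorem stab_normal (p : P) : (MulAction.stabilizer G p).Normal := by
  constructor
  intro t ht g
  have h1 : g • p ∈ MulAction.orbit G p := MulAction.mem_orbit p g
  rw [← h.stab_eq p _ h1, MulAction.mem_stabilizer_iff, mul_smul, mul_smul, inv_smul_smul,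
    MulAction.mem_stabilizer_iff.1 ht]

include hb

theorem stab_eq_bot {x : P} (hx : x ∈ MulAction.orbit G p₀) : MulAction.stabilizer G x = ⊥ := by
  rw [h.stab_eq p₀ x hx]; exact hb.1

theorem card_stab {p : P} (hp : p ∉ MulAction.orbit G p₀) :
    Nat.card (MulAction.stabilizer G p) = N := by
  have h1 := h.card_orbit_mul p
  rw [hb.2 p hp, sq] at h1
  exact Nat.eq_of_mul_eq_mul_left (by have := h.N_ge; omega) h1

theorem stab_ne_bot {p : P} (hp : p ∉ MulAction.orbit G p₀) : MulAction.stabilizer G p ≠ ⊥ := by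
  intro h1
  have h2 := h.card_stab hb hp
  rw [h1, Subgroup.card_bot] at h2
  have := h.N_ge
  omega

theorem fix_stab {p : P} (hp : p ∉ MulAction.orbit G p₀) :
    FP P (MulAction.stabilizer G p) = MulAction.orbit G p ∧
      (FP L (MulAction.stabilizer G p)).ncard = N ∧
      ∀ l ∈ FP L (MulAction.stabilizer G p), {q | q ∈ MulAction.orbit G p ∧ q ∈ l}.ncard = k := by
  have h7 := h.N_ge
  have ho := hb.2 p hp
  obtain ⟨a, b, c, d, ha, hb', hc, hd, h1, h2, h3, h5⟩ := h.quad_of_orbit p (by omega)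
  have hs := h.orbit_subset_fix p
  obtain ⟨m, hm, hF, hF', hl⟩ := h.fix_bound _ (h.stab_ne_bot hb hp) a b c d (hs ha) (hs hb')
    (hs hc) (hs hd) h1 h2 h3 h5
  have h6 := Set.ncard_le_ncard hs (Set.toFinite _)
  have hN := h.hN
  rw [hF, ho] at h6
  have hmk : k = m + 1 := by
    by_contra hne
    obtain ⟨j, hj⟩ : ∃ j, k = m + 2 + j := ⟨k - (m + 2), by omega⟩
    subst hj
    nlinarith
  subst hmk
  have hNm : m ^ 2 + m + 1 = N := by nlinarith
  have hFo : FP P (MulAction.stabilizer G p) = MulAction.orbit G p := by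
    symm
    apply Set.eq_of_subset_of_ncard_le hs _ (Set.toFinite _)
    rw [hF, ho, hNm]
  refine ⟨hFo, by rw [hF', hNm], ?_⟩
  intro l hl'
  have := hl l hl'
  rw [hFo] at this
  exact this

theorem stab_inf {p q : P} (hp : p ∉ MulAction.orbit G p₀) (hq : q ∉ MulAction.orbit G p₀)
    (hpq : q ∉ MulAction.orbit G p) :
    MulAction.stabilizer G p ⊓ MulAction.stabilizer G q = ⊥ := by
  by_contra hne
  have h7 := h.N_ge
  obtain ⟨a, b, c, d, ha, hb', hc, hd, h1, h2, h3, h5⟩ := h.quad_of_orbit p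
    (by rw [hb.2 p hp]; omega)
  have hs1 : MulAction.orbit G p ⊆ FP P (MulAction.stabilizer G p ⊓ MulAction.stabilizer G q) :=
    fun x hx t ht => h.orbit_subset_fix p hx t ht.1
  have hs2 : MulAction.orbit G q ⊆ FP P (MulAction.stabilizer G p ⊓ MulAction.stabilizer G q) :=
    fun x hx t ht => h.orbit_subset_fix q hx t ht.2
  obtain ⟨m, hm, hF, -, -⟩ := h.fix_bound _ hne a b c d (hs1 ha) (hs1 hb')
    (hs1 hc) (hs1 hd) h1 h2 h3 h5
  have h6 := Set.ncard_le_ncard (Set.union_subset hs1 hs2) (Set.toFinite _)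
  rw [Set.ncard_union_eq _ (Set.toFinite _) (Set.toFinite _), hb.2 p hp, hb.2 q hq, hF] at h6
  · have hN := h.hN
    obtain ⟨j, hj⟩ : ∃ j, k = m + 1 + j := ⟨k - (m + 1), by omega⟩
    subst hj
    nlinarith
  · rw [Set.disjoint_left]
    intro x hx hx'
    apply hpq
    rw [← MulAction.orbit_eq_iff.2 hx, MulAction.orbit_eq_iff.2 hx']
    exact MulAction.mem_orbit_self q

/-- lines of one subplane miss the other subplanes -/
theorem notMem_of_fix {p q : P} (hp : p ∉ MulAction.orbit G p₀) (hq : q ∉ MulAction.orbit G p₀)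
    (hpq : q ∉ MulAction.orbit G p) (l : L) (hl : l ∈ FP L (MulAction.stabilizer G p)) :
    q ∉ l := by
  intro hql
  have hinj : Function.Injective
      (fun t : MulAction.stabilizer G p => (t : G) • q) := by
    intro s t hst
    simp only at hst
    have h1 : (t : G)⁻¹ * s ∈ MulAction.stabilizer G p ⊓ MulAction.stabilizer G q := by
      refine Subgroup.mem_inf.2 ⟨?_, ?_⟩
      · exact (MulAction.stabilizer G p).mul_mem ((MulAction.stabilizer G p).inv_mem t.2) s.2
      · rw [MulAction.mem_stabilizer_iff, mul_smul, hst, inv_smul_smul]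
    rw [h.stab_inf hb hp hq hpq, Subgroup.mem_bot, inv_mul_eq_one] at h1
    exact Subtype.ext h1.symm
  have hrange : Set.range (fun t : MulAction.stabilizer G p => (t : G) • q) =
      MulAction.orbit G q := by
    apply Set.eq_of_subset_of_ncard_le _ _ (Set.toFinite _)
    · rintro _ ⟨t, rfl⟩
      exact MulAction.mem_orbit q (t : G)
    · rw [hb.2 q hq, ← Set.image_univ, Set.ncard_image_of_injective _ hinj, Set.ncard_univ,
        h.card_stab hb hp]
  obtain ⟨x, hx, hxl⟩ := h.orbit_not_line q l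
  apply hxl
  rw [← hrange] at hx
  obtain ⟨t, rfl⟩ := hx
  have h1 := (h.mem (t : G) q l).1 hql
  rwa [hl t t.2] at h1

theorem smul_fix {p : P} {l : L} (hl : l ∈ FP L (MulAction.stabilizer G p)) (g : G) :
    g • l ∈ FP L (MulAction.stabilizer G p) := by
  intro t ht
  have h1 := (h.stab_normal p).conj_mem t ht g⁻¹
  rw [inv_inv] at h1
  have h2 := hl _ h1
  rw [mul_smul, mul_smul] at h2
  have h3 := congrArg (fun m => g • m) h2
  simpa using h3

theorem line_inter {p : P} (hp : p ∉ MulAction.orbit G p₀) {l : L}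
    (hl : l ∈ FP L (MulAction.stabilizer G p)) :
    {q | q ∈ MulAction.orbit G p₀ ∧ q ∈ l}.ncard = N := by
  have h1 := (h.fix_stab hb hp).2.2 l hl
  have h2 : {q | q ∈ MulAction.orbit G p₀ ∧ q ∈ l}.ncard +
      {q | q ∈ MulAction.orbit G p ∧ q ∈ l}.ncard = k ^ 2 + 1 := by
    rw [← h.card_line l, ← Set.ncard_union_eq]
    · congr 1
      ext q
      simp only [Set.mem_union, Set.mem_ofPred_eq]
      constructor
      · rintro (h3 | h3) <;> exact h3.2
      · intro h3
        by_cases h4 : q ∈ MulAction.orbit G p₀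
        · exact Or.inl ⟨h4, h3⟩
        · by_cases h5 : q ∈ MulAction.orbit G p
          · exact Or.inr ⟨h5, h3⟩
          · exact absurd h3 (h.notMem_of_fix hb hp h4 h5 l hl)
    · rw [Set.disjoint_left]
      intro q h3 h4
      apply hp
      have h5 := MulAction.orbit_eq_iff.2 h3.1
      have h6 := MulAction.orbit_eq_iff.2 h4.1
      rw [← h5, h6]
      exact MulAction.mem_orbit_self p
  have hN := h.hN
  omega

theorem exists_line_base {p : P} (hp : p ∉ MulAction.orbit G p₀) :
    ∃ l ∈ FP L (MulAction.stabilizer G p), p₀ ∈ l := by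
  obtain ⟨-, h1, -⟩ := h.fix_stab hb hp
  have h7 := h.N_ge
  obtain ⟨l, hl⟩ : (FP L (MulAction.stabilizer G p)).Nonempty := by
    rw [← Set.ncard_pos (Set.toFinite _), h1]; omega
  have h2 := h.line_inter hb hp hl
  obtain ⟨x, hx, hxl⟩ : {q | q ∈ MulAction.orbit G p₀ ∧ q ∈ l}.Nonempty := by
    rw [← Set.ncard_pos (Set.toFinite _), h2]; omega
  obtain ⟨g, rfl⟩ := hx
  refine ⟨g⁻¹ • l, h.smul_fix hb hl g⁻¹, ?_⟩
  have h3 := (h.mem g⁻¹ _ l).1 hxl
  simpa using h3

theorem mem_stab_of_mem {p : P} (hp : p ∉ MulAction.orbit G p₀) {l : L}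
    (hl : l ∈ FP L (MulAction.stabilizer G p)) (hpl : p₀ ∈ l) (x : G) (hx : x • p₀ ∈ l) :
    x ∈ MulAction.stabilizer G p := by
  have hinj : Function.Injective
      (fun t : MulAction.stabilizer G p => (t : G) • p₀) := by
    intro s t hst
    simp only at hst
    have h1 : (t : G)⁻¹ * s ∈ MulAction.stabilizer G p₀ := by
      rw [MulAction.mem_stabilizer_iff, mul_smul, hst, inv_smul_smul]
    rw [hb.1, Subgroup.mem_bot, inv_mul_eq_one] at h1
    exact Subtype.ext h1.symm
  have hrange : Set.range (fun t : MulAction.stabilizer G p => (t : G) • p₀) =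
      {q | q ∈ MulAction.orbit G p₀ ∧ q ∈ l} := by
    apply Set.eq_of_subset_of_ncard_le _ _ (Set.toFinite _)
    · rintro _ ⟨t, rfl⟩
      refine ⟨MulAction.mem_orbit p₀ (t : G), ?_⟩
      have h1 := (h.mem (t : G) p₀ l).1 hpl
      rwa [hl t t.2] at h1
    · rw [h.line_inter hb hp hl, ← Set.image_univ, Set.ncard_image_of_injective _ hinj,
        Set.ncard_univ, h.card_stab hb hp]
  have h2 : x • p₀ ∈ Set.range (fun t : MulAction.stabilizer G p => (t : G) • p₀) := by
    rw [hrange]
    exact ⟨MulAction.mem_orbit p₀ x, hx⟩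
  obtain ⟨t, ht⟩ := h2
  simp only at ht
  have h3 : x⁻¹ * t ∈ MulAction.stabilizer G p₀ := by
    rw [MulAction.mem_stabilizer_iff, mul_smul, ht, inv_smul_smul]
  rw [hb.1, Subgroup.mem_bot, inv_mul_eq_one] at h3
  rw [h3]
  exact t.2

/-- a line with a nontrivial stabilizer belongs to one of the subplanes -/
theorem line_of_stab_ne_bot (l : L) (hl : MulAction.stabilizer G l ≠ ⊥) :
    ∃ p : P, p ∉ MulAction.orbit G p₀ ∧ l ∈ FP L (MulAction.stabilizer G p) := by
  obtain ⟨g, hg⟩ : ∃ g : G, g • l ≠ l := by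
    by_contra h1
    push Not at h1
    exact h.nfl ⟨l, h1⟩
  obtain ⟨x, hx1, hx2⟩ := exists_point_of_ne (P := P) hg
  have hT : ∀ t ∈ MulAction.stabilizer G l, t • x = x := by
    intro t ht
    rw [MulAction.mem_stabilizer_iff] at ht
    exact h.smul_point_eq hg hx1 hx2 (h.qL t l _ (MulAction.mem_orbit l g) ht) ht
  have hle : MulAction.stabilizer G l ≤ MulAction.stabilizer G x := fun t ht => hT t ht
  have hx0 : x ∉ MulAction.orbit G p₀ := by
    intro h1
    apply hl
    rw [eq_bot_iff, ← h.stab_eq_bot hb h1]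
    exact hle
  refine ⟨x, hx0, ?_⟩
  by_contra hcon
  set X : Set P := {y | y ∈ l ∧ y ≠ x} with hX
  have hXc : X.ncard = k ^ 2 := by
    have h1 : X = {y | y ∈ l} \ {x} := by
      ext y
      simp [hX]
    rw [h1, Set.ncard_sdiff_singleton_of_mem (by exact hx2), h.card_line l]
    rfl
  have hone : ∀ y ∈ X, y ∉ MulAction.orbit G x := by
    intro y hy hyx
    apply hcon
    intro t ht
    exact h.smul_line_eq hy.2 hy.1 hx2 (h.orbit_subset_fix x hyx t ht) ht
  have hdvd : Nat.card (MulAction.stabilizer G l) ∣ X.ncard := by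
    apply card_dvd_of_free
    · intro t ht y hy
      have ht' : t • l = l := ht
      refine ⟨?_, ?_⟩
      · have := (h.mem t y l).1 hy.1
        rwa [ht'] at this
      · intro h1
        apply hy.2
        have h2 := hT t ht
        rw [← h2] at h1
        exact MulAction.injective t h1
    · intro t ht y hy hty
      have h1 : t ∈ MulAction.stabilizer G y := hty
      by_cases h2 : y ∈ MulAction.orbit G p₀
      · rw [h.stab_eq_bot hb h2, Subgroup.mem_bot] at h1
        exact h1
      · have h3 : t ∈ MulAction.stabilizer G x ⊓ MulAction.stabilizer G y := ⟨hle ht, h1⟩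
        rw [h.stab_inf hb hx0 h2 (hone y hy), Subgroup.mem_bot] at h3
        exact h3
  rw [hXc] at hdvd
  have h6 : Nat.card (MulAction.stabilizer G l) ∣ N ^ 2 := by
    rw [← h.hG]
    exact Subgroup.card_subgroup_dvd_card _
  have h7 := Nat.eq_one_of_dvd_coprimes h.coprime_k2 h6 hdvd
  exact hl (Subgroup.eq_bot_of_card_eq _ h7)

end IsTypeH

end

end Pool.Agent.E8helper90.TypeH
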