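import Mathlib
import Pool.Agent.E8helper90.TypeH.Design

set_option autoImplicit false
set_option linter.unusedSectionVars false

/-!
# The group ring equation of a plane of type (h) has no solutions: the contradiction
-/

namespace Pool.Agent.E8helper90.TypeH

open MonoidAlgebra

section Main

variable {G : Type*} [CommGroup G] [Fintype G] [DecidableEq G]

variable {k N : ℕ} {S : Finset (Subgroup G)} {D : Finset G}

namespace Design

/-- the element `D + M - G` of the group ring, where `M` counts the cosets not meeting `D` -/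
noncomputable def X (k : ℕ) (S : Finset (Subgroup G)) (D : Finset G) : MonoidAlgebra ℤ G :=
  ind D * (1 - sig S) + (2 * (k : MonoidAlgebra ℤ G) - 1) * ind Finset.univ

variable (h : Design k N S D)

include h

theorem cast_rel : (N : MonoidAlgebra ℤ G) + (k : MonoidAlgebra ℤ G) = (k : MonoidAlgebra ℤ G) ^ 2 + 1 := by
  exact_mod_cast congrArg (Nat.cast : ℕ → MonoidAlgebra ℤ G) h.hN

theorem ind_mul_univ' : ind D * ind Finset.univ =
    ((k : MonoidAlgebra ℤ G) - 1) ^ 2 * ind Finset.univ := by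
  rw [ind_mul_univ, h.hD]
  have hk := h.hk
  obtain ⟨j, rfl⟩ : ∃ j, k = j + 1 := ⟨k - 1, by omega⟩
  rw [Nat.add_sub_cancel]
  push_cast
  ring

theorem iv_ind_mul_univ' : iv ℤ (ind D) * ind Finset.univ =
    ((k : MonoidAlgebra ℤ G) - 1) ^ 2 * ind Finset.univ := by
  have h1 := congrArg (iv ℤ) h.ind_mul_univ'
  simp only [map_mul, map_pow, map_sub, map_natCast, map_one, iv_ind_univ] at h1
  exact h1

theorem sq_univ : (ind Finset.univ : MonoidAlgebra ℤ G) * ind Finset.univ =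
    (N : MonoidAlgebra ℤ G) ^ 2 * ind Finset.univ := by
  rw [ind_mul_univ]
  congr 1
  have : (Finset.univ : Finset G).card = N ^ 2 := by
    rw [Finset.card_univ, ← Nat.card_eq_fintype_card, h.hG]
  rw [this]
  push_cast
  ring

theorem sig_mul_sig' : sig S * sig S = (N : MonoidAlgebra ℤ G) * sig S +
    (2 * (k : MonoidAlgebra ℤ G) * (2 * (k : MonoidAlgebra ℤ G) - 1)) * ind Finset.univ := by
  rw [h.sig_mul_sig]
  have hk := h.hk
  obtain ⟨j, hj⟩ : ∃ j, 2 * k = j + 1 := ⟨2 * k - 1, by omega⟩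
  have h1 : 2 * k - 1 = j := by omega
  have h2 : 2 * (k : MonoidAlgebra ℤ G) = (j : MonoidAlgebra ℤ G) + 1 := by
    exact_mod_cast congrArg (Nat.cast : ℕ → MonoidAlgebra ℤ G) hj
  rw [h1]
  push_cast
  rw [h2]
  ring

theorem X_mul_iv : X k S D * iv ℤ (X k S D) = (k : MonoidAlgebra ℤ G) ^ 2 *
    (1 + ((k : MonoidAlgebra ℤ G) - 2) * sig S +
      ((k : MonoidAlgebra ℤ G) ^ 2 + 2 * (k : MonoidAlgebra ℤ G) - 1) * ind Finset.univ) := by
  have e0 := h.cast_rel
  have e1 := h.ind_mul_iv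
  have e2 := h.ind_mul_univ'
  have e3 := h.iv_ind_mul_univ'
  have e4 := h.sq_univ
  have e5 := h.sig_mul_sig'
  have e6 := h.sig_mul_univ
  have e7 : iv ℤ (X k S D) = iv ℤ (ind D) * (1 - sig S) +
      (2 * (k : MonoidAlgebra ℤ G) - 1) * ind Finset.univ := by
    unfold X
    simp only [map_add, map_mul, map_sub, map_one, map_natCast, iv_sig, iv_ind_univ, map_ofNat]
  rw [e7]
  unfold X
  push_cast at e1 e6
  generalize (iv ℤ) (ind D) = D' at *
  generalize ind D = D₁ at *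
  generalize (ind Finset.univ : MonoidAlgebra ℤ G) = u at *
  generalize sig S = s at *
  generalize ((k : ℕ) : MonoidAlgebra ℤ G) = κ at *
  have eN : ((N : ℕ) : MonoidAlgebra ℤ G) = κ ^ 2 + 1 - κ := by linear_combination e0
  rw [eN] at e4 e5 e6
  have f1 : (1 - s) ^ 2 = 1 + (κ ^ 2 - κ - 1) * s + 2 * κ * (2 * κ - 1) * u := by
    linear_combination e5
  have f2 : (1 - s) * u = (1 - 2 * κ * (κ ^ 2 + 1 - κ)) * u := by linear_combination -e6
  have f3 : (D₁ * (1 - s) + (2 * κ - 1) * u) * (D' * (1 - s) + (2 * κ - 1) * u) =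
      D₁ * D' * (1 - s) ^ 2 + (2 * κ - 1) * ((1 - s) * (D₁ * u + D' * u)) +
        (2 * κ - 1) ^ 2 * (u * u) := by ring
  rw [f3, e1, e2, e3, e4, f1]
  have f4 : (1 - s) * ((κ - 1) ^ 2 * u + (κ - 1) ^ 2 * u) =
      2 * (κ - 1) ^ 2 * ((1 - 2 * κ * (κ ^ 2 + 1 - κ)) * u) := by
    linear_combination 2 * (κ - 1) ^ 2 * f2
  rw [f4]
  linear_combination (-(κ ^ 2 - κ - 1)) * e5 + (2 * κ * (2 * κ - 1)) * e4 +
    ((κ ^ 2 - κ - 1) - 2 * κ * (2 * κ - 1)) * e6

theorem X_mul_univ : X k S D * ind Finset.univ =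
    (k : MonoidAlgebra ℤ G) ^ 4 * ind Finset.univ := by
  have e0 := h.cast_rel
  have e2 := h.ind_mul_univ'
  have e4 := h.sq_univ
  have e6 := h.sig_mul_univ
  unfold X
  push_cast at e6
  generalize ind D = D₁ at *
  generalize (ind Finset.univ : MonoidAlgebra ℤ G) = u at *
  generalize sig S = s at *
  generalize ((k : ℕ) : MonoidAlgebra ℤ G) = κ at *
  have eN : ((N : ℕ) : MonoidAlgebra ℤ G) = κ ^ 2 + 1 - κ := by linear_combination e0
  rw [eN] at e4 e6
  linear_combination (1 - 2 * κ * (κ ^ 2 + 1 - κ)) * e2 - D₁ * e6 + (2 * κ - 1) * e4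

theorem sum_X : ∑ g : G, (X k S D).coeff g = (k : ℤ) ^ 4 := by
  rw [← coeff_mul_univ (X k S D) 1, h.X_mul_univ]
  have h1 := intCast_mul_coeff ((k : ℤ) ^ 4) (ind (Finset.univ : Finset G)) 1
  push_cast at h1
  rw [h1, coeff_ind, if_pos (Finset.mem_univ _), mul_one]

theorem sum_X_sq : ∑ g : G, ((X k S D).coeff g) ^ 2 = (k : ℤ) ^ 2 * (3 * (k : ℤ) ^ 2 - 2 * k) := by
  classical
  rw [← coeff_mul_iv, h.X_mul_iv]
  have h1 := intCast_mul_coeff ((k : ℤ) ^ 2) (1 + ((k : MonoidAlgebra ℤ G) - 2) * sig S +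
      ((k : MonoidAlgebra ℤ G) ^ 2 + 2 * (k : MonoidAlgebra ℤ G) - 1) * ind Finset.univ) 1
  push_cast at h1
  rw [h1]
  have h2 := intCast_mul_coeff ((k : ℤ) - 2) (sig S) 1
  push_cast at h2
  have h3 := intCast_mul_coeff ((k : ℤ) ^ 2 + 2 * k - 1) (ind (Finset.univ : Finset G)) 1
  push_cast at h3
  have h4 : (sig S).coeff 1 = 2 * k := by
    rw [coeff_sig, Finset.sum_congr rfl (fun K _ => by
      rw [coeff_sub', if_pos K.one_mem] : ∀ K ∈ S, (sub K).coeff 1 = (1 : ℤ))]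
    simp [h.hS]
  rw [coeff_add, coeff_add, Finsupp.add_apply, Finsupp.add_apply, h2, h3, h4, coeff_ind,
    if_pos (Finset.mem_univ _), one_coeff, if_pos rfl]
  ring

/-- a coset of `K` meets `D` at most once -/
theorem coeff_ind_mul_sub (K : Subgroup G) (hK : K ∈ S) (x : G) :
    (ind D * sub K).coeff x = 0 ∨ (ind D * sub K).coeff x = 1 := by
  classical
  rw [coeff_mul']
  have h1 : ∀ g : G, (ind D).coeff g * (sub K).coeff (g⁻¹ * x) =
      if g ∈ D ∧ g⁻¹ * x ∈ K then 1 else 0 := by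
    intro g
    rw [coeff_ind, coeff_sub']
    split_ifs <;> simp_all
  rw [Finset.sum_congr rfl (fun g _ => h1 g), Finset.sum_boole]
  have h2 : (Finset.univ.filter (fun g => g ∈ D ∧ g⁻¹ * x ∈ K)).card ≤ 1 := by
    rw [Finset.card_le_one]
    intro a ha b hb
    simp only [Finset.mem_filter, Finset.mem_univ, true_and] at ha hb
    apply h.hD1 K hK a ha.1 b hb.1
    have h3 : a * b⁻¹ = (b⁻¹ * x) * (a⁻¹ * x)⁻¹ := by
      rw [mul_inv_rev, inv_inv]
      rw [show b⁻¹ * x * (x⁻¹ * a) = b⁻¹ * a by group]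
      exact mul_comm _ _
    rw [h3]
    exact K.mul_mem hb.2 (K.inv_mem ha.2)
  have h3 : (Finset.univ.filter (fun g => g ∈ D ∧ g⁻¹ * x ∈ K)).card = 0 ∨
      (Finset.univ.filter (fun g => g ∈ D ∧ g⁻¹ * x ∈ K)).card = 1 := by omega
  rcases h3 with h3 | h3
  · left; rw [h3]; rfl
  · right; rw [h3]; rfl

theorem X_ge (x : G) : -1 ≤ (X k S D).coeff x := by
  classical
  have h1 : X k S D = ind D + (∑ K ∈ S, (ind Finset.univ - ind D * sub K)) - ind Finset.univ := by
    rw [Finset.sum_sub_distrib, ← Finset.mul_sum, Finset.sum_const, h.hS, nsmul_eq_mul]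
    unfold X sig
    push_cast
    ring
  rw [h1, MonoidAlgebra.coeff_sub, coeff_add, coeff_sum, Finsupp.sub_apply, Finsupp.add_apply,
    Finsupp.finsetSum_apply, coeff_ind, coeff_ind, if_pos (Finset.mem_univ _)]
  have h2 : 0 ≤ ∑ K ∈ S, (ind Finset.univ - ind D * sub K).coeff x := by
    apply Finset.sum_nonneg
    intro K hK
    rw [MonoidAlgebra.coeff_sub, Finsupp.sub_apply, coeff_ind, if_pos (Finset.mem_univ _)]
    rcases h.coeff_ind_mul_sub K hK x with h3 | h3 <;> rw [h3] <;> norm_num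
  split_ifs <;> linarith

/-- the counting argument -/
theorem false_of_dvd (t : ℤ) (ht : 3 ≤ t) (hd : ∀ g : G, t ∣ (X k S D).coeff g) : False := by
  have hk := h.hk
  have h1 : ∀ g : G, t * (X k S D).coeff g ≤ ((X k S D).coeff g) ^ 2 := by
    intro g
    obtain ⟨c, hc⟩ := hd g
    have h2 := h.X_ge g
    rw [hc] at h2 ⊢
    have h3 : 0 ≤ c := by
      by_contra hneg
      push Not at hneg
      have : t * c ≤ t * (-1) := mul_le_mul_of_nonneg_left (by omega) (by omega)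
      omega
    rcases lt_or_ge 0 c with h4 | h4
    · have h5 : 0 ≤ t * t * c * (c - 1) := by
        have : 0 ≤ c - 1 := by omega
        positivity
      nlinarith
    · have : c = 0 := by omega
      subst this
      simp
  have h2 : ∑ g : G, t * (X k S D).coeff g ≤ ∑ g : G, ((X k S D).coeff g) ^ 2 :=
    Finset.sum_le_sum fun g _ => h1 g
  rw [← Finset.mul_sum, h.sum_X, h.sum_X_sq] at h2
  have hk' : (3 : ℤ) ≤ k := by exact_mod_cast hk
  have h3 : 3 * (k : ℤ) ^ 4 ≤ t * (k : ℤ) ^ 4 := mul_le_mul_of_nonneg_right ht (by positivity)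
  have h4 : 0 < 2 * (k : ℤ) ^ 3 := by positivity
  nlinarith

theorem card_coprime (r : ℕ) (hr : Nat.Coprime r N) : (Nat.card G).Coprime r := by
  rw [h.hG]
  exact Nat.Coprime.pow_left 2 hr.symm

/-- the case of a prime divisor `r ≥ 3` of `k` -/
theorem false_of_odd (r f : ℕ) (hr : r.Prime) (hrk : r ∣ k) (hr3 : 3 ≤ r) (hf : N ∣ r ^ f + 1) :
    False := by
  obtain ⟨c, hc⟩ := hrk
  obtain ⟨Y, hY⟩ := dvd_of_selfConj r hr N f h.pow_eq_one hf
    (h.card_coprime r (coprime_k h.hN hr ⟨c, hc⟩)) (X k S D)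
    ((c : MonoidAlgebra ℤ G) * (k : MonoidAlgebra ℤ G) *
    (1 + ((k : MonoidAlgebra ℤ G) - 2) * sig S +
      ((k : MonoidAlgebra ℤ G) ^ 2 + 2 * (k : MonoidAlgebra ℤ G) - 1) * ind Finset.univ)) (by
      rw [h.X_mul_iv]
      have h1 : (k : MonoidAlgebra ℤ G) = (r : MonoidAlgebra ℤ G) * c := by
        exact_mod_cast congrArg (Nat.cast : ℕ → MonoidAlgebra ℤ G) hc
      rw [sq, ← mul_assoc (r : MonoidAlgebra ℤ G), ← mul_assoc (r : MonoidAlgebra ℤ G), ← h1])
  apply h.false_of_dvd r (by exact_mod_cast hr3)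
  intro g
  have h2 := intCast_mul_coeff (r : ℤ) Y g
  push_cast at h2
  rw [hY, h2]
  exact dvd_mul_right _ _

/-- the case of the prime `2` when `4` divides `k` -/
theorem false_of_four (f : ℕ) (hk4 : 4 ∣ k) (hf : N ∣ 2 ^ f + 1) : False := by
  obtain ⟨c, hc⟩ := hk4
  have hcop := h.card_coprime 2 (coprime_k h.hN Nat.prime_two (by omega))
  have h1 : (k : MonoidAlgebra ℤ G) = 4 * (c : MonoidAlgebra ℤ G) := by
    exact_mod_cast congrArg (Nat.cast : ℕ → MonoidAlgebra ℤ G) hc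
  set W := (1 + ((k : MonoidAlgebra ℤ G) - 2) * sig S +
      ((k : MonoidAlgebra ℤ G) ^ 2 + 2 * (k : MonoidAlgebra ℤ G) - 1) * ind Finset.univ) with hW
  have hXX := h.X_mul_iv
  rw [← hW] at hXX
  obtain ⟨Y, hY⟩ := dvd_of_selfConj 2 Nat.prime_two N f h.pow_eq_one hf hcop (X k S D)
    (8 * (c : MonoidAlgebra ℤ G) ^ 2 * W) (by
      rw [hXX, h1]
      push_cast
      ring)
  have hYY : Y * iv ℤ Y = ((2 : ℕ) : MonoidAlgebra ℤ G) * (2 * (c : MonoidAlgebra ℤ G) ^ 2 * W) := by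
    rw [hY, map_mul, map_natCast, h1] at hXX
    push_cast at hXX ⊢
    have h4 : ((4 : ℤ) : MonoidAlgebra ℤ G) * (Y * iv ℤ Y) =
        ((4 : ℤ) : MonoidAlgebra ℤ G) * (2 * (2 * (c : MonoidAlgebra ℤ G) ^ 2 * W)) := by
      push_cast
      linear_combination hXX
    ext g
    have h5 := congrArg (fun Z => Z.coeff g) h4
    simp only [intCast_mul_coeff] at h5
    omega
  obtain ⟨Z, hZ⟩ := dvd_of_selfConj 2 Nat.prime_two N f h.pow_eq_one hf hcop Y _ hYY
  apply h.false_of_dvd 4 (by norm_num)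
  intro g
  have h2 := intCast_mul_coeff (4 : ℤ) Z g
  push_cast at h2
  have h3 : X k S D = 4 * Z := by
    rw [hY, hZ]
    push_cast
    ring
  rw [h3, h2]
  exact dvd_mul_right _ _

/-- the case of a self-conjugate prime divisor of `k - 1` -/
theorem false_of_pred (s f : ℕ) (hs : s.Prime) (hsk : s ∣ k - 1) (hf : N ∣ s ^ f + 1) : False := by
  classical
  have hk := h.hk
  obtain ⟨c, hc⟩ := hsk
  obtain ⟨K, hK⟩ : ∃ K, K ∈ S := by
    have h1 : S.Nonempty := by
      rw [← Finset.card_pos, h.hS]; omega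
    exact h1
  have h1 : (k : MonoidAlgebra ℤ G) - 1 = (s : MonoidAlgebra ℤ G) * c := by
    have h2 : k = s * c + 1 := by omega
    have h3 : (k : MonoidAlgebra ℤ G) = (s : MonoidAlgebra ℤ G) * c + 1 := by
      exact_mod_cast congrArg (Nat.cast : ℕ → MonoidAlgebra ℤ G) h2
    rw [h3]; ring
  have hKS : sub K * sig S = (N : MonoidAlgebra ℤ G) * sub K +
      (2 * (k : MonoidAlgebra ℤ G) - 1) * ind Finset.univ := by
    unfold sig
    rw [Finset.mul_sum, ← Finset.add_sum_erase S _ hK, sub_mul_self, h.hcard K hK]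
    congr 1
    rw [Finset.sum_congr rfl (fun K' hK' => by
      rw [Finset.mem_erase] at hK'
      apply sub_mul_sub K K' (h.hdisj K hK K' hK'.2 hK'.1.symm)
      rw [h.hcard K hK, h.hcard K' hK'.2, h.hG, sq] : ∀ K' ∈ S.erase K, sub K * sub K' =
        ind Finset.univ)]
    rw [Finset.sum_const, Finset.card_erase_of_mem hK, h.hS, nsmul_eq_mul]
    congr 1
    obtain ⟨j, hj⟩ : ∃ j, 2 * k = j + 1 := ⟨2 * k - 1, by omega⟩
    have h2 : 2 * k - 1 = j := by omega
    have h3 : 2 * (k : MonoidAlgebra ℤ G) = (j : MonoidAlgebra ℤ G) + 1 := by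
      exact_mod_cast congrArg (Nat.cast : ℕ → MonoidAlgebra ℤ G) hj
    rw [h2, h3]
    ring
  obtain ⟨Y, hY⟩ := dvd_of_selfConj s hs N f h.pow_eq_one hf
    (h.card_coprime s (coprime_k1 (by omega) h.hN hs ⟨c, hc⟩)) (ind D * sub K)
    ((c : MonoidAlgebra ℤ G) * (N : MonoidAlgebra ℤ G) *
      (sub K + ((k : MonoidAlgebra ℤ G) - 2) * ind Finset.univ)) (by
      rw [map_mul, iv_sub]
      have e0 := h.cast_rel
      have e1 := h.ind_mul_iv
      have e2 := sub_mul_self K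
      have e3 := sub_mul_univ K
      rw [h.hcard K hK] at e2 e3
      push_cast at e1
      generalize (iv ℤ) (ind D) = D' at *
      generalize ind D = D₁ at *
      generalize (ind Finset.univ : MonoidAlgebra ℤ G) = u at *
      generalize sig S = s' at *
      generalize sub K = κK at *
      generalize ((k : ℕ) : MonoidAlgebra ℤ G) = κ at *
      have eN : ((N : ℕ) : MonoidAlgebra ℤ G) = κ ^ 2 + 1 - κ := by linear_combination e0
      rw [eN] at e2 e3 hKS ⊢
      have e4 : D₁ * κK * (D' * κK) = (κ ^ 2 + 1 - κ) * (κ - 1) * (κK + (κ - 2) * u) := by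
        have e5 : D₁ * κK * (D' * κK) = (D₁ * D') * (κK * κK) := by ring
        rw [e5, e1, e2]
        linear_combination (κ ^ 2 + 1 - κ) * e3 - (κ ^ 2 + 1 - κ) * hKS
      rw [e4, h1]
      ring)
  -- some coset meets `D`
  obtain ⟨d, hd⟩ : ∃ d, d ∈ D := by
    have h1 : D.Nonempty := by
      rw [← Finset.card_pos, h.hD]
      have : 0 < k - 1 := by omega
      positivity
    exact h1
  have h2 : (ind D * sub K).coeff d ≠ 0 := by
    rw [coeff_mul']
    have h3 : 0 < ∑ g : G, (ind D).coeff g * (sub K).coeff (g⁻¹ * d) := by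
      apply Finset.sum_pos'
      · intro g _
        rw [coeff_ind, coeff_sub']
        split_ifs <;> norm_num
      · refine ⟨d, Finset.mem_univ _, ?_⟩
        rw [coeff_ind, coeff_sub', if_pos hd, inv_mul_cancel, if_pos K.one_mem]
        norm_num
    exact h3.ne'
  have h3 := intCast_mul_coeff (s : ℤ) Y d
  push_cast at h3
  rcases h.coeff_ind_mul_sub K hK d with h4 | h4
  · exact h2 h4
  · rw [hY, h3] at h4
    have h5 : (s : ℤ) ∣ 1 := ⟨_, h4.symm⟩
    have h6 : s ∣ 1 := by exact_mod_cast h5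
    exact hs.one_lt.ne' (Nat.dvd_one.1 h6)

/-- **The group ring equation of a plane of type (h) has no solutions.** -/
theorem false : False := by
  have hk := h.hk
  obtain ⟨q, a, hq, hq2, hNq⟩ := primePow_of_disjoint k N (by omega) h.hN h.hG S h.hS h.hcard h.hdisj
  have hS : SqrtOne N := by
    rw [hNq]
    exact sqrtOne_of_primePow hq hq2
  obtain ⟨r, f, hr, hrk, hf⟩ := exists_selfConj (by omega) h.hN hS
  rcases Nat.lt_or_ge 2 r with h3 | h3
  · exact h.false_of_odd r f hr hrk h3 hf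
  have hr2 : r = 2 := le_antisymm h3 hr.two_le
  subst hr2
  by_cases h4 : 4 ∣ k
  · exact h.false_of_four f h4 hf
  have hN := h.hN
  obtain ⟨j, hj⟩ : ∃ j, k = 4 * j + 2 := ⟨k / 4, by omega⟩
  have h4 : N % 4 = 3 := by
    have : N = 4 * (4 * j ^ 2 + 3 * j) + 3 := by
      subst hj
      have : (4 * j + 2) ^ 2 = 16 * j ^ 2 + 16 * j + 4 := by ring
      omega
    omega
  have h9 : ¬ 3 ∣ N := by
    intro h3N
    -- then `N = 3`
    have hk3 : k % 3 = 2 := by
      have h5 : (N + k) % 3 = (k ^ 2 + 1) % 3 := by rw [hN]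
      rw [Nat.add_mod, Nat.mod_eq_zero_of_dvd h3N, Nat.add_mod (k ^ 2), Nat.pow_mod] at h5
      have : k % 3 = 0 ∨ k % 3 = 1 ∨ k % 3 = 2 := by omega
      rcases this with h6 | h6 | h6 <;> rw [h6] at h5 <;> simp_all
    have hq3 : q = 3 := by
      rw [hNq] at h3N
      exact ((Nat.prime_dvd_prime_iff_eq Nat.prime_three hq).1
        (Nat.prime_three.dvd_of_dvd_pow h3N)).symm
    have ha : a < 2 := by
      by_contra ha
      push Not at ha
      have h10 : 9 ∣ N := by
        rw [hNq, hq3]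
        exact (pow_dvd_pow 3 ha)
      obtain ⟨i, hi⟩ : ∃ i, k = 3 * i + 2 := ⟨k / 3, by omega⟩
      have h11 : N = 9 * (i ^ 2 + i) + 3 := by
        have : k ^ 2 = 9 * i ^ 2 + 12 * i + 4 := by rw [hi]; ring
        omega
      omega
    have hN9 : N ≤ 3 := by
      rw [hNq, hq3]
      calc 3 ^ a ≤ 3 ^ 1 := Nat.pow_le_pow_right (by norm_num) (by omega)
        _ = 3 := by norm_num
    nlinarith
  have hk3 : k % 3 = 0 ∨ k % 3 = 1 := by
    by_contra hcon
    apply h9
    obtain ⟨i, hi⟩ : ∃ i, k = 3 * i + 2 := ⟨k / 3, by omega⟩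
    have h11 : N = 3 * (3 * i ^ 2 + 3 * i + 1) := by
      have : k ^ 2 = 9 * i ^ 2 + 12 * i + 4 := by rw [hi]; ring
      omega
    rw [h11]
    exact dvd_mul_right _ _
  have h3N : N % 3 = 1 := by
    rcases hk3 with h5 | h5
    · obtain ⟨i, hi⟩ : ∃ i, k = 3 * i := ⟨k / 3, by omega⟩
      have : k ^ 2 = 3 * (3 * i ^ 2) := by rw [hi]; ring
      omega
    · obtain ⟨i, hi⟩ : ∃ i, k = 3 * i + 1 := ⟨k / 3, by omega⟩
      have : k ^ 2 = 3 * (3 * i ^ 2 + 2 * i) + 1 := by rw [hi]; ring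
      omega
  obtain ⟨f', hf'⟩ := three_selfConj h4 h3N hS
  rcases hk3 with h5 | h5
  · exact h.false_of_odd 3 f' Nat.prime_three (Nat.dvd_of_mod_eq_zero h5) le_rfl hf'
  · exact h.false_of_pred 3 f' Nat.prime_three (by omega) hf'

end Design

end Main

end Pool.Agent.E8helper90.TypeH
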