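import Mathlib
import Pool.Agent.E8helper90.TypeH.Lines
import Pool.Agent.E8helper90.TypeH.NoDesign

set_option autoImplicit false
set_option linter.unusedSectionVars false

/-!
# There is no plane of type (h)
-/

namespace Pool.Agent.E8helper90.TypeH

open Configuration Configuration.ProjectivePlane

section

variable {P L G : Type*} [Membership P L] [ProjectivePlane P L] [Group G] [MulAction G P]
  [MulAction G L] [Finite P] [Finite L] [Finite G] {k N : ℕ}

namespace IsTypeH

variable (h : IsTypeH P L G k N) {p₀ : P} (hb : Base G N p₀)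

open Classical in
/-- the stabilizers of the points outside the regular orbit -/
noncomputable def stabs (G : Type*) {P : Type*} [Group G] [Finite G] [MulAction G P] (p₀ : P) :
    Finset (Subgroup G) :=
  (Set.toFinite {K : Subgroup G | ∃ p : P, p ∉ MulAction.orbit G p₀ ∧
    MulAction.stabilizer G p = K}).toFinset

theorem mem_stabs {K : Subgroup G} : K ∈ stabs G p₀ ↔ ∃ p : P, p ∉ MulAction.orbit G p₀ ∧
    MulAction.stabilizer G p = K := by
  unfold stabs
  rw [Set.Finite.mem_toFinset]
  rfl

include h hb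

theorem card_of_mem {K : Subgroup G} (hK : K ∈ stabs G p₀) : Nat.card K = N := by
  obtain ⟨p, hp, rfl⟩ := mem_stabs.1 hK
  exact h.card_stab hb hp

theorem inf_of_mem {K K' : Subgroup G} (hK : K ∈ stabs G p₀) (hK' : K' ∈ stabs G p₀)
    (hne : K ≠ K') : K ⊓ K' = ⊥ := by
  obtain ⟨p, hp, rfl⟩ := mem_stabs.1 hK
  obtain ⟨q, hq, rfl⟩ := mem_stabs.1 hK'
  apply h.stab_inf hb hp hq
  intro h1
  exact hne (h.stab_eq p q h1).symm

theorem normal_of_mem {K : Subgroup G} (hK : K ∈ stabs G p₀) : K.Normal := by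
  obtain ⟨p, hp, rfl⟩ := mem_stabs.1 hK
  exact h.stab_normal p

omit h hb in
theorem mem_out (ω : MulAction.orbitRel.Quotient G P) (p : P) :
    (Quotient.mk'' p : MulAction.orbitRel.Quotient G P) = ω ↔ p ∈ MulAction.orbit G ω.out := by
  have h0 : (Quotient.mk'' ω.out : MulAction.orbitRel.Quotient G P) = ω := Quotient.out_eq' ω
  constructor
  · intro h1
    have h2 : (Quotient.mk'' p : MulAction.orbitRel.Quotient G P) = Quotient.mk'' ω.out :=
      h1.trans h0.symm
    have h3 : (MulAction.orbitRel G P) p ω.out := Quotient.exact h2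
    exact MulAction.orbitRel_apply.1 h3
  · intro h1
    rw [← h0]
    exact Quotient.sound' (MulAction.orbitRel_apply.2 h1)

theorem card_stabs : (stabs G p₀).card = 2 * k := by
  classical
  have : Fintype P := Fintype.ofFinite P
  have : Fintype (MulAction.orbitRel.Quotient G P) := Fintype.ofFinite _
  have h1 : (Finset.univ.erase
      (Quotient.mk'' p₀ : MulAction.orbitRel.Quotient G P)).card = 2 * k := by
    rw [Finset.card_erase_of_mem (Finset.mem_univ _), Finset.card_univ, ← Nat.card_eq_fintype_card,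
      h.orb]
    omega
  rw [← h1]
  symm
  have hnot : ∀ ω : MulAction.orbitRel.Quotient G P, ω ≠ Quotient.mk'' p₀ →
      ω.out ∉ MulAction.orbit G p₀ := by
    intro ω hω h2
    apply hω
    symm
    rw [mem_out, MulAction.mem_orbit_symm]
    exact h2
  apply Finset.card_bij (fun ω _ => MulAction.stabilizer G ω.out)
  · intro ω hω
    rw [mem_stabs]
    exact ⟨ω.out, hnot ω (Finset.ne_of_mem_erase hω), rfl⟩
  · intro ω hω ω' hω' heq
    by_contra hne
    have h2 := hnot ω (Finset.ne_of_mem_erase hω)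
    have h3 := hnot ω' (Finset.ne_of_mem_erase hω')
    have h4 : ω'.out ∉ MulAction.orbit G ω.out := by
      intro h5
      apply hne
      rw [← mem_out] at h5
      rw [← h5]
      exact Quotient.out_eq' ω'
    have h5 := h.stab_inf hb h2 h3 h4
    rw [← heq, inf_idem] at h5
    exact h.stab_ne_bot hb h2 h5
  · intro K hK
    obtain ⟨p, hp, rfl⟩ := mem_stabs.1 hK
    refine ⟨Quotient.mk'' p, ?_, ?_⟩
    · rw [Finset.mem_erase]
      refine ⟨?_, Finset.mem_univ _⟩
      intro h2
      apply hp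
      have h3 : (MulAction.orbitRel G P) p p₀ := Quotient.exact h2
      exact MulAction.orbitRel_apply.1 h3
    · have h2 : p ∈ MulAction.orbit G
          (Quotient.out (Quotient.mk'' p : MulAction.orbitRel.Quotient G P)) := by
        rw [← mem_out]
      exact (h.stab_eq _ _ h2).symm

/-- the regular lines -/
theorem card_regular : {l : L | MulAction.stabilizer G l = ⊥}.ncard = N ^ 2 := by
  classical
  have : Fintype L := Fintype.ofFinite L
  have h7 := h.N_ge
  have h1 : {l : L | MulAction.stabilizer G l = ⊥}ᶜ =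
      (((stabs G p₀).biUnion fun K => (FP L K).toFinset : Finset L) : Set L) := by
    ext l
    simp only [Set.mem_compl_iff, Set.mem_ofPred_eq, Finset.coe_biUnion, Set.mem_iUnion,
      Set.coe_toFinset, Finset.mem_coe]
    constructor
    · intro h2
      obtain ⟨p, hp, hl⟩ := h.line_of_stab_ne_bot hb l h2
      exact ⟨_, mem_stabs.2 ⟨p, hp, rfl⟩, hl⟩
    · rintro ⟨K, hK, hl⟩ h2
      obtain ⟨p, hp, rfl⟩ := mem_stabs.1 hK
      apply h.stab_ne_bot hb hp
      rw [eq_bot_iff, ← h2]
      exact fun t ht => hl t ht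
  have h2 : ({l : L | MulAction.stabilizer G l = ⊥}ᶜ).ncard = 2 * k * N := by
    rw [h1, Set.ncard_coe_finset, Finset.card_biUnion]
    · rw [← h.card_stabs hb, Finset.sum_congr rfl (g := fun _ => N), Finset.sum_const, smul_eq_mul]
      intro K hK
      obtain ⟨p, hp, rfl⟩ := mem_stabs.1 hK
      rw [← Set.ncard_eq_toFinset_card']
      exact (h.fix_stab hb hp).2.1
    · intro K hK K' hK' hne
      rw [Function.onFun, Finset.disjoint_left]
      intro l hl hl'
      rw [Set.mem_toFinset] at hl hl'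
      obtain ⟨p, hp, rfl⟩ := mem_stabs.1 hK
      obtain ⟨q, hq, rfl⟩ := mem_stabs.1 hK'
      have hpq : q ∉ MulAction.orbit G p := fun h3 => hne (h.stab_eq p q h3).symm
      have h3 := (h.fix_stab hb hq).2.2 l hl'
      have hk := h.hk
      obtain ⟨x, hx, hxl⟩ : {x | x ∈ MulAction.orbit G q ∧ x ∈ l}.Nonempty := by
        rw [← Set.ncard_pos (Set.toFinite _), h3]; omega
      have h4 := MulAction.orbit_eq_iff.2 hx
      apply h.notMem_of_fix hb hp (q := x) _ _ l hl hxl
      · intro h5
        apply hq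
        rw [← MulAction.orbit_eq_iff.2 h5, h4]
        exact MulAction.mem_orbit_self q
      · intro h5
        apply hpq
        rw [← MulAction.orbit_eq_iff.2 h5, h4]
        exact MulAction.mem_orbit_self q
  have h3 := Set.ncard_add_ncard_compl {l : L | MulAction.stabilizer G l = ⊥}
  rw [h2, h.card_lines'] at h3
  nlinarith

theorem exists_regular : ∃ l : L, MulAction.stabilizer G l = ⊥ := by
  have h1 := h.card_regular hb (L := L)
  have h7 := h.N_ge
  have h2 : {l : L | MulAction.stabilizer G l = ⊥}.Nonempty := by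
    rw [← Set.ncard_pos (Set.toFinite _), h1]
    positivity
  exact h2

/-- the regular lines form one orbit -/
theorem regular_orbit (l m : L) (hl : MulAction.stabilizer G l = ⊥)
    (hm : MulAction.stabilizer G m = ⊥) : ∃ g : G, g • l = m := by
  have h1 : MulAction.orbit G l ⊆ {l : L | MulAction.stabilizer G l = ⊥} := by
    rintro _ ⟨g, rfl⟩
    simp only [Set.mem_ofPred_eq]
    rw [MulAction.stabilizer_smul_eq_stabilizer_map_conj, hl, Subgroup.map_bot]
  have h2 : (MulAction.orbit G l).ncard = N ^ 2 := by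
    have h3 := Subgroup.card_mul_index (MulAction.stabilizer G l)
    rw [MulAction.index_stabilizer, hl, Subgroup.card_bot, one_mul, h.hG] at h3
    exact h3
  have h3 : MulAction.orbit G l = {l : L | MulAction.stabilizer G l = ⊥} := by
    apply Set.eq_of_subset_of_ncard_le h1 _ (Set.toFinite _)
    rw [h2, h.card_regular hb]
  have h4 : m ∈ MulAction.orbit G l := by rw [h3]; exact hm
  exact h4

/-- a regular line meets every orbit outside the regular one in one point -/
theorem regular_inter (l : L) (hl : MulAction.stabilizer G l = ⊥) (q : P)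
    (hq : q ∉ MulAction.orbit G p₀) : {x | x ∈ MulAction.orbit G q ∧ x ∈ l}.ncard = 1 := by
  classical
  have hk := h.hk
  -- a point of another subplane
  obtain ⟨K, hK, hne⟩ : ∃ K ∈ stabs G p₀, K ≠ MulAction.stabilizer G q := by
    by_contra hcon
    push Not at hcon
    have h1 : stabs G p₀ ⊆ {MulAction.stabilizer G q} := by
      intro K hK
      rw [Finset.mem_singleton]
      exact hcon K hK
    have h2 := Finset.card_le_card h1
    rw [h.card_stabs hb, Finset.card_singleton] at h2
    omega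
  obtain ⟨p, hp, rfl⟩ := mem_stabs.1 hK
  have hpq : p ∉ MulAction.orbit G q := fun h3 => hne (h.stab_eq q p h3)
  have hqp : q ∉ MulAction.orbit G p := fun h3 => hne (h.stab_eq p q h3).symm
  have hneq : q ≠ p := by
    rintro rfl
    exact hpq (MulAction.mem_orbit_self q)
  obtain ⟨m, hqm, hpm⟩ := exists_line_of_ne (L := L) hneq
  have hm : MulAction.stabilizer G m = ⊥ := by
    by_contra h1
    obtain ⟨x, hx, hxm⟩ := h.line_of_stab_ne_bot hb m h1
    by_cases h2 : q ∈ MulAction.orbit G x
    · have h3 : p ∉ MulAction.orbit G x := by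
        intro h4
        apply hpq
        rw [MulAction.orbit_eq_iff.2 h2]
        exact h4
      exact h.notMem_of_fix hb hx hp h3 m hxm hpm
    · exact h.notMem_of_fix hb hx hq h2 m hxm hqm
  obtain ⟨g, hg⟩ := h.regular_orbit hb m l hm hl
  rw [Set.ncard_eq_one]
  refine ⟨g • q, ?_⟩
  have hgq : g • q ∈ l := by
    rw [← hg]
    exact (h.mem g q m).1 hqm
  ext x
  simp only [Set.mem_ofPred_eq, Set.mem_singleton_iff]
  constructor
  · rintro ⟨hx, hxl⟩
    by_contra hxq
    apply h.stab_ne_bot hb hq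
    rw [eq_bot_iff, ← hl]
    intro t ht
    have h1 := h.orbit_subset_fix q hx t ht
    have h2 := h.orbit_subset_fix q (MulAction.mem_orbit q g) t ht
    exact h.smul_line_eq hxq hxl hgq h1 h2
  · rintro rfl
    exact ⟨MulAction.mem_orbit q g, hgq⟩

theorem regular_inter_base (l : L) (hl : MulAction.stabilizer G l = ⊥) :
    {x | x ∈ MulAction.orbit G p₀ ∧ x ∈ l}.ncard = (k - 1) ^ 2 := by
  classical
  have : Fintype P := Fintype.ofFinite P
  have : Fintype (MulAction.orbitRel.Quotient G P) := Fintype.ofFinite _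
  have h1 : (Finset.univ.filter (fun x : P => x ∈ l)).card = k ^ 2 + 1 := by
    rw [← h.card_line l, ← Set.ncard_coe_finset]
    congr 1
    ext x
    simp
  rw [Finset.card_eq_sum_card_fiberwise (f := fun x : P =>
    (Quotient.mk'' x : MulAction.orbitRel.Quotient G P)) (t := Finset.univ)
    (fun _ _ => Finset.mem_coe.2 (Finset.mem_univ _)),
    ← Finset.add_sum_erase Finset.univ _
      (Finset.mem_univ (Quotient.mk'' p₀ : MulAction.orbitRel.Quotient G P))] at h1
  have h2 : ∀ q : P, ((Finset.univ.filter (fun x : P => x ∈ l)).filter (fun x =>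
      (Quotient.mk'' x : MulAction.orbitRel.Quotient G P) = Quotient.mk'' q)).card =
      {x | x ∈ MulAction.orbit G q ∧ x ∈ l}.ncard := by
    intro q
    rw [← Set.ncard_coe_finset]
    congr 1
    ext x
    simp only [Finset.coe_filter, Finset.mem_filter, Finset.mem_univ, true_and, Set.mem_ofPred_eq]
    rw [and_comm]
    apply and_congr_left
    intro _
    constructor
    · intro h3
      have h4 : (MulAction.orbitRel G P) x q := Quotient.exact h3
      exact MulAction.orbitRel_apply.1 h4
    · intro h3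
      exact Quotient.sound' (MulAction.orbitRel_apply.2 h3)
  rw [h2 p₀] at h1
  have h3 : ∀ ω ∈ Finset.univ.erase (Quotient.mk'' p₀ : MulAction.orbitRel.Quotient G P),
      ((Finset.univ.filter (fun x : P => x ∈ l)).filter (fun x =>
        (Quotient.mk'' x : MulAction.orbitRel.Quotient G P) = ω)).card = 1 := by
    intro ω hω
    have h4 : ω = Quotient.mk'' ω.out := (Quotient.out_eq' ω).symm
    rw [h4, h2 ω.out]
    apply h.regular_inter hb l hl
    intro h5
    apply Finset.ne_of_mem_erase hω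
    symm
    rw [mem_out, MulAction.mem_orbit_symm]
    exact h5
  rw [Finset.sum_congr rfl h3, Finset.sum_const, Finset.card_erase_of_mem (Finset.mem_univ _),
    Finset.card_univ, ← Nat.card_eq_fintype_card, h.orb] at h1
  have hk := h.hk
  obtain ⟨j, rfl⟩ : ∃ j, k = j + 1 := ⟨k - 1, by omega⟩
  rw [Nat.add_sub_cancel]
  rw [smul_eq_mul, mul_one] at h1
  have h5 : (j + 1) ^ 2 = j ^ 2 + 2 * j + 1 := by ring
  omega

/-- the group is abelian -/
theorem mul_comm' (x y : G) : x * y = y * x := by
  classical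
  have hk := h.hk
  have h7 := h.N_ge
  -- three members of the family
  obtain ⟨K₁, hK₁, K₂, hK₂, K₃, hK₃, h12, h13, h23⟩ : ∃ K₁ ∈ stabs G p₀, ∃ K₂ ∈ stabs G p₀,
      ∃ K₃ ∈ stabs G p₀, K₁ ≠ K₂ ∧ K₁ ≠ K₃ ∧ K₂ ≠ K₃ := by
    have h1 : 2 < (stabs G p₀).card := by rw [h.card_stabs hb]; omega
    obtain ⟨a, b, c, ha, hb', hc, hab, hac, hbc⟩ := Finset.two_lt_card_iff.1 h1
    exact ⟨a, ha, b, hb', c, hc, hab, hac, hbc⟩
  have hcomp : ∀ A B : Subgroup G, A ∈ stabs G p₀ → B ∈ stabs G p₀ → A ≠ B →
      ∀ g : G, ∃ a ∈ A, ∃ b ∈ B, a * b = g := by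
    intro A B hA hB hAB g
    have h1 : Subgroup.IsComplement' A B := by
      apply Subgroup.isComplement'_of_card_mul_and_disjoint
      · rw [h.card_of_mem hb hA, h.card_of_mem hb hB, h.hG, sq]
      · rw [disjoint_iff]
        exact h.inf_of_mem hb hA hB hAB
    obtain ⟨⟨a, b⟩, hab⟩ := h1.2 g
    exact ⟨a.1, a.2, b.1, b.2, hab⟩
  have hcomm : ∀ A B : Subgroup G, A ∈ stabs G p₀ → B ∈ stabs G p₀ → A ≠ B →
      ∀ a ∈ A, ∀ b ∈ B, a * b = b * a := by
    intro A B hA hB hAB a ha b hb'
    have hnA := h.normal_of_mem hb hA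
    have hnB := h.normal_of_mem hb hB
    exact Subgroup.commute_of_normal_of_disjoint A B hnA hnB
      (disjoint_iff.2 (h.inf_of_mem hb hA hB hAB)) a b ha hb'
  have hcen : ∀ A B C : Subgroup G, A ∈ stabs G p₀ → B ∈ stabs G p₀ → C ∈ stabs G p₀ → A ≠ B →
      A ≠ C → B ≠ C → ∀ a ∈ A, ∀ g : G, a * g = g * a := by
    intro A B C hA hB hC hAB hAC hBC a ha g
    obtain ⟨b, hb', c, hc, rfl⟩ := hcomp B C hB hC hBC g
    rw [← mul_assoc, hcomm A B hA hB hAB a ha b hb', mul_assoc, hcomm A C hA hC hAC a ha c hc,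
      mul_assoc]
  obtain ⟨a, ha, b, hb', rfl⟩ := hcomp K₁ K₂ hK₁ hK₂ h12 x
  rw [mul_assoc, hcen K₂ K₁ K₃ hK₂ hK₁ hK₃ h12.symm h23 h13 b hb' y, ← mul_assoc,
    hcen K₁ K₂ K₃ hK₁ hK₂ hK₃ h12 h13 h23 a ha y, mul_assoc]

end IsTypeH

end

/-- the design of a plane of type (h) -/
theorem IsTypeH.design {P L G : Type*} [Membership P L] [ProjectivePlane P L] [CommGroup G]
    [MulAction G P] [MulAction G L] [Finite P] [Finite L] [Fintype G] [DecidableEq G] {k N : ℕ}
    (h : IsTypeH P L G k N) {p₀ : P} (hb : Base G N p₀) :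
    ∃ D : Finset G, Design k N (IsTypeH.stabs G p₀) D := by
  classical
  obtain ⟨l₀, hl₀⟩ := h.exists_regular hb
  refine ⟨Finset.univ.filter (fun g => g • p₀ ∈ l₀), ?_⟩
  have hinj : Function.Injective (fun g : G => g • p₀) := by
    intro s t hst
    simp only at hst
    have h1 : t⁻¹ * s ∈ MulAction.stabilizer G p₀ := by
      rw [MulAction.mem_stabilizer_iff, mul_smul, hst, inv_smul_smul]
    rw [hb.1, Subgroup.mem_bot, inv_mul_eq_one] at h1
    exact h1.symm
  refine
    { hk := h.hk
      hN := h.hN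
      hG := h.hG
      hS := h.card_stabs hb
      hcard := fun K hK => h.card_of_mem hb hK
      hdisj := fun K hK K' hK' hne => h.inf_of_mem hb hK hK' hne
      hD := ?_
      hD1 := ?_
      hD2 := ?_ }
  · rw [← h.regular_inter_base hb l₀ hl₀, ← Set.ncard_coe_finset,
      ← Set.ncard_image_of_injective _ hinj]
    congr 1
    ext x
    simp only [Finset.coe_filter, Finset.mem_univ, true_and, Set.mem_image, Set.mem_ofPred_eq]
    constructor
    · rintro ⟨g, hg, rfl⟩
      exact ⟨MulAction.mem_orbit p₀ g, hg⟩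
    · rintro ⟨⟨g, rfl⟩, hg⟩
      exact ⟨g, hg, rfl⟩
  · intro K hK d hd d' hd' hdd
    simp only [Finset.mem_filter, Finset.mem_univ, true_and] at hd hd'
    by_contra hne
    obtain ⟨q, hq, rfl⟩ := IsTypeH.mem_stabs.1 hK
    obtain ⟨m, hm, hpm⟩ := h.exists_line_base hb hq
    have h1 : d' • p₀ ∈ d' • m := (h.mem d' p₀ m).1 hpm
    have h2 := h.smul_fix hb hm d'
    have h3 : d • p₀ ∈ d' • m := by
      have h4 := (h.mem (d * d'⁻¹) (d' • p₀) (d' • m)).1 h1
      rw [h2 _ hdd, ← mul_smul, inv_mul_cancel_right] at h4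
      exact h4
    have h5 : l₀ = d' • m := by
      apply line_unique (P := P) _ hd hd' h3 h1
      exact fun h6 => hne (hinj h6)
    apply h.stab_ne_bot hb hq
    rw [eq_bot_iff, ← hl₀]
    intro t ht
    rw [h5]
    exact h2 t ht
  · intro x hx
    have hx1 : x ≠ 1 := by
      rintro rfl
      have hk := h.hk
      obtain ⟨K, hK⟩ : (IsTypeH.stabs G p₀).Nonempty := by
        rw [← Finset.card_pos, h.card_stabs hb]; omega
      exact hx K hK K.one_mem
    have hne : p₀ ≠ x • p₀ := by
      intro h1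
      apply hx1
      apply hinj
      simp only [one_smul]
      exact h1.symm
    obtain ⟨m, hpm, hxm⟩ := exists_line_of_ne (L := L) hne
    have hm : MulAction.stabilizer G m = ⊥ := by
      by_contra h1
      obtain ⟨q, hq, hqm⟩ := h.line_of_stab_ne_bot hb m h1
      exact hx _ (IsTypeH.mem_stabs.2 ⟨q, hq, rfl⟩) (h.mem_stab_of_mem hb hq hqm hpm x hxm)
    obtain ⟨g, hg⟩ := h.regular_orbit hb l₀ m hl₀ hm
    have h1 : g⁻¹ • p₀ ∈ l₀ := by
      have h2 := (h.mem g⁻¹ p₀ m).1 hpm
      rwa [← hg, inv_smul_smul] at h2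
    have h2 : (g⁻¹ * x) • p₀ ∈ l₀ := by
      have h3 := (h.mem g⁻¹ (x • p₀) m).1 hxm
      rwa [← hg, inv_smul_smul, ← mul_smul] at h3
    refine ⟨(g⁻¹ * x, g⁻¹), ?_, ?_⟩
    · simp only [Finset.mem_filter, Finset.mem_univ, true_and]
      refine ⟨h2, h1, ?_⟩
      rw [inv_inv, mul_comm g⁻¹ x, inv_mul_cancel_right]
    · rintro ⟨e, e'⟩ he
      simp only [Finset.mem_filter, Finset.mem_univ, true_and] at he
      obtain ⟨he1, he2, he3⟩ := he
      have h3 : p₀ ∈ e'⁻¹ • l₀ := by
        have h4 := (h.mem e'⁻¹ (e' • p₀) l₀).1 he2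
        rwa [inv_smul_smul] at h4
      have h4 : x • p₀ ∈ e'⁻¹ • l₀ := by
        have h5 := (h.mem e'⁻¹ (e • p₀) l₀).1 he1
        rwa [← mul_smul, mul_comm e'⁻¹ e, he3] at h5
      have h5 : e'⁻¹ • l₀ = m := line_unique (P := P) hne h3 h4 hpm hxm
      have h6 : g⁻¹ * e'⁻¹ ∈ MulAction.stabilizer G l₀ := by
        rw [MulAction.mem_stabilizer_iff, mul_smul, h5, ← hg, inv_smul_smul]
      rw [hl₀, Subgroup.mem_bot, inv_mul_eq_one] at h6
      have h7 : e' = g⁻¹ := by rw [h6, inv_inv]
      rw [← h7, ← he3, mul_comm e' (e * e'⁻¹), inv_mul_cancel_right]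

/-- **There is no finite projective plane of type (h).** -/
theorem IsTypeH.false {P L G : Type*} [Membership P L] [ProjectivePlane P L] [Group G]
    [MulAction G P] [MulAction G L] [Finite P] [Finite L] [Finite G] {k N : ℕ}
    (h : IsTypeH P L G k N) : False := by
  classical
  obtain ⟨p₀, hb⟩ := h.orbit_structure
  have : Fintype G := Fintype.ofFinite G
  let I : CommGroup G := { (inferInstance : Group G) with mul_comm := h.mul_comm' hb }
  obtain ⟨D, hD⟩ := IsTypeH.design (G := G) h hb
  exact hD.false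

end Pool.Agent.E8helper90.TypeH
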